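import Mathlib

/-! Matrix Spencer: quadratic forms, expansions, averaging. -/

namespace Pool.Agent.P.MP_1157dd_an

open Matrix Filter Topology

variable {D I : Type} [Fintype D] [Fintype I]

/-- quadratic form of a matrix -/
def qf (M : Matrix D D ℝ) (u : D → ℝ) : ℝ := u ⬝ᵥ M *ᵥ u

lemma qf_add (M N : Matrix D D ℝ) (u : D → ℝ) : qf (M + N) u = qf M u + qf N u := by
  simp [qf, add_mulVec]

lemma qf_sub (M N : Matrix D D ℝ) (u : D → ℝ) : qf (M - N) u = qf M u - qf N u := by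
  simp [qf, sub_mulVec]

lemma qf_smul (a : ℝ) (M : Matrix D D ℝ) (u : D → ℝ) : qf (a • M) u = a * qf M u := by
  simp [qf, smul_mulVec]

lemma qf_sum {K : Type} (s : Finset K) (M : K → Matrix D D ℝ) (u : D → ℝ) :
    qf (∑ k ∈ s, M k) u = ∑ k ∈ s, qf (M k) u := by
  simp [qf, sum_mulVec, dotProduct_sum]

lemma qf_one [DecidableEq D] (u : D → ℝ) : qf (1 : Matrix D D ℝ) u = u ⬝ᵥ u := by simp [qf]

lemma qf_conj {E : Type} [Fintype E] (M : Matrix D D ℝ) (Y : Matrix D E ℝ) (u : E → ℝ) :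
    qf (Yᵀ * M * Y) u = qf M (Y *ᵥ u) := by
  simp only [qf, ← mulVec_mulVec]
  rw [dotProduct_mulVec, vecMul_transpose]

lemma qf_eq (M : Matrix D D ℝ) (u : D → ℝ) : qf M u = ∑ i, ∑ j, u i * M i j * u j := by
  simp only [qf, dotProduct, mulVec, Finset.mul_sum, mul_assoc]

lemma qf_diagonal [DecidableEq D] (a u : D → ℝ) : qf (diagonal a) u = ∑ i, a i * u i ^ 2 := by
  simp only [qf, dotProduct, mulVec_diagonal]
  exact Finset.sum_congr rfl fun i _ => by ring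

lemma qf_single [DecidableEq D] (M : Matrix D D ℝ) (i : D) : qf M (Pi.single i 1) = M i i := by
  simp [qf]

lemma dot_nonneg (u : D → ℝ) : 0 ≤ u ⬝ᵥ u := Finset.sum_nonneg fun _ _ => mul_self_nonneg _

lemma dot_eq_sq (u : D → ℝ) : u ⬝ᵥ u = ∑ i, u i ^ 2 := by simp only [dotProduct, sq]

lemma symm_dot {M : Matrix D D ℝ} (h : Mᵀ = M) (u v : D → ℝ) : u ⬝ᵥ M *ᵥ v = M *ᵥ u ⬝ᵥ v := by
  rw [dotProduct_mulVec, ← mulVec_transpose, h]

/-- positive definite quadratic form -/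
def PD (M : Matrix D D ℝ) : Prop := ∃ δ : ℝ, 0 < δ ∧ ∀ u, δ * (u ⬝ᵥ u) ≤ qf M u

lemma abs_qf_le (M : Matrix D D ℝ) (u : D → ℝ) :
    |qf M u| ≤ (∑ i, ∑ j, |M i j|) * (u ⬝ᵥ u) := by
  rw [qf_eq, Finset.sum_mul]
  refine (Finset.abs_sum_le_sum_abs _ _).trans (Finset.sum_le_sum fun i _ => ?_)
  rw [Finset.sum_mul]
  refine (Finset.abs_sum_le_sum_abs _ _).trans (Finset.sum_le_sum fun j _ => ?_)
  have hi : u i ^ 2 ≤ u ⬝ᵥ u := by
    rw [dot_eq_sq]
    exact Finset.single_le_sum (f := fun i => u i ^ 2) (fun _ _ => sq_nonneg _) (Finset.mem_univ i)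
  have hj : u j ^ 2 ≤ u ⬝ᵥ u := by
    rw [dot_eq_sq]
    exact Finset.single_le_sum (f := fun i => u i ^ 2) (fun _ _ => sq_nonneg _) (Finset.mem_univ j)
  have : |u i * u j| ≤ u ⬝ᵥ u := by
    rw [abs_le]; constructor <;> nlinarith [sq_nonneg (u i + u j), sq_nonneg (u i - u j)]
  calc |u i * M i j * u j| = |M i j| * |u i * u j| := by rw [← abs_mul]; congr 1; ring
    _ ≤ _ := mul_le_mul_of_nonneg_left this (abs_nonneg _)

lemma isOpen_PD : IsOpen {M : Matrix D D ℝ | PD M} := by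
  rw [isOpen_iff_mem_nhds]
  rintro M ⟨δ, hδ, h⟩
  have hc : Continuous fun N : Matrix D D ℝ => ∑ i, ∑ j, |(N - M) i j| := by fun_prop
  have : ∀ᶠ N in 𝓝 M, ∑ i, ∑ j, |(N - M) i j| < δ / 2 :=
    hc.continuousAt.eventually_lt continuousAt_const (by simpa using hδ)
  filter_upwards [this] with N hN
  refine ⟨δ / 2, half_pos hδ, fun u => ?_⟩
  have h1 := abs_qf_le (N - M) u
  rw [qf_sub, abs_le] at h1
  nlinarith [h u, dot_nonneg u]

lemma PD.nonneg {M : Matrix D D ℝ} (h : PD M) (u : D → ℝ) : 0 ≤ qf M u := by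
  obtain ⟨δ, hδ, h⟩ := h
  exact (mul_nonneg hδ.le (dot_nonneg u)).trans (h u)

lemma eventually_PD {N : ℝ → Matrix D D ℝ} (hc : Continuous N) (h : PD (N 0)) :
    ∀ᶠ t in 𝓝 (0 : ℝ), PD (N t) :=
  hc.continuousAt.eventually (isOpen_PD.mem_nhds h)

lemma PD_diagonal [DecidableEq D] {a : D → ℝ} (h : ∀ i, 0 < a i) : PD (diagonal a) := by
  rcases isEmpty_or_nonempty D with hD | hD
  · exact ⟨1, one_pos, fun u => by simp [qf, dotProduct]⟩
  obtain ⟨i₀, -, hi⟩ := Finset.exists_min_image Finset.univ a Finset.univ_nonempty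
  refine ⟨a i₀, h i₀, fun u => ?_⟩
  rw [qf_diagonal, dot_eq_sq, Finset.mul_sum]
  exact Finset.sum_le_sum fun i _ =>
    mul_le_mul_of_nonneg_right (hi i (Finset.mem_univ i)) (sq_nonneg _)

lemma PD.smul {M : Matrix D D ℝ} (h : PD M) {a : ℝ} (ha : 0 < a) : PD (a • M) := by
  obtain ⟨δ, hδ, h⟩ := h
  exact ⟨a * δ, mul_pos ha hδ, fun u => by
    rw [qf_smul, mul_assoc]; exact mul_le_mul_of_nonneg_left (h u) ha.le⟩

lemma PD.add {M N : Matrix D D ℝ} (h : PD M) (hN : ∀ u, 0 ≤ qf N u) : PD (M + N) := by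
  obtain ⟨δ, hδ, h⟩ := h
  exact ⟨δ, hδ, fun u => by rw [qf_add]; linarith [h u, hN u]⟩

/-- a polynomial upper bound for the inverse of `1 + E` -/
lemma inv_bound [DecidableEq D] {E : Matrix D D ℝ} (hE : Eᵀ = E)
    (h : ∀ u, 0 ≤ qf ((1 / 2 : ℝ) • 1 + E) u) (u v : D → ℝ) :
    2 * (u ⬝ᵥ v) ≤ qf (1 - E + E * E - E * E * E + (2 : ℝ) • (E * E * (E * E))) u +
      qf (1 + E) v := by
  have h1 := h (v - u + E *ᵥ u)
  have h2 := dot_nonneg (v - u + E *ᵥ u - (2 : ℝ) • E *ᵥ E *ᵥ u)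
  have s := symm_dot hE
  simp only [qf, add_mulVec, sub_mulVec, one_mulVec, smul_mulVec, ← mulVec_mulVec, mulVec_add,
    mulVec_sub, add_dotProduct, sub_dotProduct, dotProduct_add, dotProduct_sub, dotProduct_smul,
    smul_dotProduct, smul_eq_mul] at h1 h2 ⊢
  have e1 : u ⬝ᵥ E *ᵥ v = v ⬝ᵥ E *ᵥ u := by rw [s, dotProduct_comm]
  have e2 : E *ᵥ u ⬝ᵥ E *ᵥ v = v ⬝ᵥ E *ᵥ E *ᵥ u := by rw [s v, dotProduct_comm]
  have e3 : u ⬝ᵥ E *ᵥ E *ᵥ u = E *ᵥ u ⬝ᵥ E *ᵥ u := s _ _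
  have e4 : u ⬝ᵥ E *ᵥ E *ᵥ E *ᵥ u = E *ᵥ u ⬝ᵥ E *ᵥ E *ᵥ u := s _ _
  have e5 : u ⬝ᵥ E *ᵥ E *ᵥ E *ᵥ E *ᵥ u = E *ᵥ E *ᵥ u ⬝ᵥ E *ᵥ E *ᵥ u := by rw [s, s]
  have e6 : v ⬝ᵥ u = u ⬝ᵥ v := dotProduct_comm _ _
  have e7 : E *ᵥ u ⬝ᵥ v = v ⬝ᵥ E *ᵥ u := dotProduct_comm _ _
  have e8 : E *ᵥ u ⬝ᵥ u = u ⬝ᵥ E *ᵥ u := dotProduct_comm _ _
  have e9 : E *ᵥ E *ᵥ u ⬝ᵥ v = v ⬝ᵥ E *ᵥ E *ᵥ u := dotProduct_comm _ _
  have e10 : E *ᵥ E *ᵥ u ⬝ᵥ u = u ⬝ᵥ E *ᵥ E *ᵥ u := dotProduct_comm _ _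
  have e11 : E *ᵥ E *ᵥ u ⬝ᵥ E *ᵥ u = E *ᵥ u ⬝ᵥ E *ᵥ E *ᵥ u := dotProduct_comm _ _
  linarith

/-! ### Expansion of powers -/

section pow

variable [DecidableEq D]

/-- first order coefficient -/
def P1 (L F : Matrix D D ℝ) : ℕ → Matrix D D ℝ
  | 0 => 0
  | p + 1 => P1 L F p * L + L ^ p * F

/-- second order coefficient -/
def P2 (L F G : Matrix D D ℝ) : ℕ → Matrix D D ℝ
  | 0 => 0
  | p + 1 => P2 L F G p * L + P1 L F p * F + L ^ p * G

lemma pow_expand (L F G : Matrix D D ℝ) (p : ℕ) : ∃ R : ℝ → Matrix D D ℝ, Continuous R ∧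
    ∀ t : ℝ, (L + t • F + t ^ 2 • G) ^ p =
      L ^ p + t • P1 L F p + t ^ 2 • P2 L F G p + t ^ 3 • R t := by
  induction p with
  | zero => exact ⟨fun _ => 0, continuous_const, fun t => by simp [P1, P2]⟩
  | succ p ih =>
    obtain ⟨R, hR, h⟩ := ih
    refine ⟨fun t => R t * (L + t • F + t ^ 2 • G) + P2 L F G p * F + P1 L F p * G +
      t • (P2 L F G p * G), by fun_prop, fun t => ?_⟩
    rw [pow_succ, h]
    simp only [P1, P2, add_mul, mul_add, smul_mul_assoc, mul_smul_comm, pow_succ L]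
    module

lemma trace_P1 (L U : Matrix D D ℝ) (p m : ℕ) :
    (P1 L (L * U) p * L ^ m).trace = p * (L ^ (p + m) * U).trace := by
  induction p generalizing m with
  | zero => simp [P1]
  | succ p ih =>
    rw [P1, add_mul, trace_add, mul_assoc, ← pow_succ', ih, trace_mul_comm _ (L ^ m),
      ← mul_assoc, ← mul_assoc, ← pow_add, ← pow_succ]
    push_cast
    rw [show p + (m + 1) = p + 1 + m by ring, show m + p + 1 = p + 1 + m by ring]
    ring

lemma trace_diag_le {ζ : D → ℝ} (hζ : ∀ i, 0 ≤ ζ i) {U : Matrix D D ℝ} (hU : Uᵀ = U) (a b : ℕ) :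
    (diagonal ζ ^ a * U * diagonal ζ ^ b * U).trace ≤ (diagonal ζ ^ (a + b) * (U * U)).trace := by
  have hs : ∀ i j, U j i = U i j := fun i j => by rw [← transpose_apply U i j, hU]
  have e1 : (diagonal ζ ^ a * U * diagonal ζ ^ b * U).trace =
      ∑ i, ∑ j, ζ i ^ a * ζ j ^ b * U i j ^ 2 := by
    simp only [diagonal_pow, trace, diag_apply]
    refine Finset.sum_congr rfl fun i _ => ?_
    rw [mul_apply]
    refine Finset.sum_congr rfl fun j _ => ?_
    rw [mul_diagonal, diagonal_mul, hs i j]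
    simp only [Pi.pow_apply]; ring
  have e2 : (diagonal ζ ^ (a + b) * (U * U)).trace = ∑ i, ∑ j, ζ i ^ (a + b) * U i j ^ 2 := by
    simp only [diagonal_pow, trace, diag_apply]
    refine Finset.sum_congr rfl fun i _ => ?_
    rw [diagonal_mul, mul_apply, Finset.mul_sum]
    refine Finset.sum_congr rfl fun j _ => ?_
    rw [hs i j]
    simp only [Pi.pow_apply]; ring
  have e3 : ∑ i, ∑ j, ζ i ^ a * ζ j ^ b * U i j ^ 2 = ∑ i, ∑ j, ζ j ^ a * ζ i ^ b * U i j ^ 2 := by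
    rw [Finset.sum_comm]
    exact Finset.sum_congr rfl fun i _ => Finset.sum_congr rfl fun j _ => by rw [hs i j]
  have e4 : ∑ i, ∑ j, ζ i ^ (a + b) * U i j ^ 2 = ∑ i, ∑ j, ζ j ^ (a + b) * U i j ^ 2 := by
    rw [Finset.sum_comm]
    exact Finset.sum_congr rfl fun i _ => Finset.sum_congr rfl fun j _ => by rw [hs i j]
  have key : ∑ i, ∑ j, ζ i ^ a * ζ j ^ b * U i j ^ 2 + ∑ i, ∑ j, ζ j ^ a * ζ i ^ b * U i j ^ 2 ≤
      ∑ i, ∑ j, ζ i ^ (a + b) * U i j ^ 2 + ∑ i, ∑ j, ζ j ^ (a + b) * U i j ^ 2 := by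
    simp only [← Finset.sum_add_distrib]
    refine Finset.sum_le_sum fun i _ => Finset.sum_le_sum fun j _ => ?_
    have : 0 ≤ (ζ i ^ a - ζ j ^ a) * (ζ i ^ b - ζ j ^ b) := by
      rcases le_total (ζ i) (ζ j) with h | h
      · exact mul_nonneg_of_nonpos_of_nonpos
          (sub_nonpos.2 (pow_le_pow_left₀ (hζ i) h a)) (sub_nonpos.2 (pow_le_pow_left₀ (hζ i) h b))
      · exact mul_nonneg (sub_nonneg.2 (pow_le_pow_left₀ (hζ j) h a))
          (sub_nonneg.2 (pow_le_pow_left₀ (hζ j) h b))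
    rw [pow_add, pow_add]
    nlinarith [mul_nonneg this (sq_nonneg (U i j))]
  rw [e1, e2]
  linarith

lemma trace_P1U {ζ : D → ℝ} (hζ : ∀ i, 0 ≤ ζ i) {U : Matrix D D ℝ} (hU : Uᵀ = U) (p r m : ℕ) :
    (P1 (diagonal ζ) (diagonal ζ * U) p * diagonal ζ ^ r * U * diagonal ζ ^ m).trace ≤
      p * (diagonal ζ ^ (p + r + m) * (U * U)).trace := by
  induction p generalizing r with
  | zero => simp [P1]
  | succ p ih =>
    have h1 := ih (r + 1)
    have h2 := trace_diag_le hζ hU (m + p + 1) r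
    rw [P1, add_mul, add_mul, add_mul, trace_add, mul_assoc _ (diagonal ζ), ← pow_succ',
      trace_mul_comm _ (diagonal ζ ^ m)]
    have e : diagonal ζ ^ m * (diagonal ζ ^ p * (diagonal ζ * U) * diagonal ζ ^ r * U) =
        diagonal ζ ^ (m + p + 1) * U * diagonal ζ ^ r * U := by
      simp only [pow_add, pow_one, mul_assoc]
    rw [trace_mul_comm (diagonal ζ ^ p * (diagonal ζ * U) * diagonal ζ ^ r * U), e,
      trace_mul_comm (diagonal ζ ^ m)]
    rw [show p + (r + 1) + m = p + 1 + r + m by ring] at h1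
    rw [show m + p + 1 + r = p + 1 + r + m by ring] at h2
    push_cast
    linarith

lemma trace_P2 {ζ : D → ℝ} (hζ : ∀ i, 0 ≤ ζ i) {U : Matrix D D ℝ} (hU : Uᵀ = U)
    (V : Matrix D D ℝ) (p m : ℕ) :
    (P2 (diagonal ζ) (diagonal ζ * U) (diagonal ζ * V) p * diagonal ζ ^ m).trace ≤
      p * (p - 1) / 2 * (diagonal ζ ^ (p + m) * (U * U)).trace +
        p * (diagonal ζ ^ (p + m) * V).trace := by
  induction p generalizing m with
  | zero => simp [P2]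
  | succ p ih =>
    have h1 := ih (m + 1)
    have h2 := trace_P1U hζ hU p 1 m
    have e : (diagonal ζ ^ p * (diagonal ζ * V) * diagonal ζ ^ m).trace =
        (diagonal ζ ^ (p + 1 + m) * V).trace := by
      rw [trace_mul_comm, ← mul_assoc, ← mul_assoc, ← pow_add, ← pow_succ,
        show m + p + 1 = p + 1 + m by ring]
    rw [P2, add_mul, add_mul, trace_add, trace_add, mul_assoc _ (diagonal ζ), ← pow_succ', e,
      ← mul_assoc _ (diagonal ζ) U]
    rw [show p + (m + 1) = p + 1 + m by ring] at h1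
    rw [pow_one] at h2
    push_cast
    linarith

end pow

/-! ### Averaging over a subspace -/

lemma exists_avg {α β : Type} [Fintype α] [Fintype β] (S : (I → ℝ) →ₗ[ℝ] (β → ℝ))
    (Y : Submodule ℝ (I → ℝ)) (hY : 0 < Module.finrank ℝ Y) (h : α → β → ℝ) :
    ∃ y ∈ Y, y ≠ 0 ∧ (Module.finrank ℝ Y : ℝ) * ∑ a, (h a ⬝ᵥ S y) ^ 2 ≤
      (∑ a, h a ⬝ᵥ h a) * (S y ⬝ᵥ S y) := by
  classical
  by_cases hinj : ∀ y ∈ Y, S y = 0 → y = 0
  swap
  · push Not at hinj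
    obtain ⟨y, hy, h0, hne⟩ := hinj
    exact ⟨y, hy, hne, by simp [h0]⟩
  let S' : Y →ₗ[ℝ] EuclideanSpace ℝ β :=
    ((WithLp.linearEquiv 2 ℝ (β → ℝ)).symm.toLinearMap.comp S).comp Y.subtype
  have hS' : Function.Injective S' := by
    rw [injective_iff_map_eq_zero]
    intro y hy
    apply Subtype.ext
    apply hinj y.1 y.2
    simpa [S'] using hy
  have hr : Module.finrank ℝ (LinearMap.range S') = Module.finrank ℝ Y :=
    LinearMap.finrank_range_of_inj hS'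
  let b := stdOrthonormalBasis ℝ (LinearMap.range S')
  have hon : Orthonormal ℝ fun j => ((b j : LinearMap.range S') : EuclideanSpace ℝ β) :=
    (LinearMap.range S').subtypeₗᵢ.orthonormal_comp_iff.2 b.orthonormal
  have hsum : ∑ j, ∑ a, (h a ⬝ᵥ ((b j : LinearMap.range S') : EuclideanSpace ℝ β).ofLp) ^ 2 ≤
      ∑ _j : Fin (Module.finrank ℝ (LinearMap.range S')),
        (∑ a, h a ⬝ᵥ h a) / Module.finrank ℝ Y := by
    have e : ∑ _j : Fin (Module.finrank ℝ (LinearMap.range S')),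
        (∑ a, h a ⬝ᵥ h a) / Module.finrank ℝ Y = ∑ a, h a ⬝ᵥ h a := by
      rw [Finset.sum_const, Finset.card_univ, Fintype.card_fin, hr, nsmul_eq_mul,
        mul_div_cancel₀ _ (by exact_mod_cast hY.ne')]
    rw [Finset.sum_comm, e]
    refine Finset.sum_le_sum fun a _ => ?_
    have := hon.sum_inner_products_le (s := Finset.univ) (WithLp.toLp 2 (h a))
    rw [EuclideanSpace.norm_sq_eq] at this
    simp only [Real.norm_eq_abs, sq_abs, EuclideanSpace.inner_eq_star_dotProduct, star_trivial]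
      at this
    rw [dot_eq_sq]
    exact this
  have hne : (Finset.univ : Finset (Fin (Module.finrank ℝ (LinearMap.range S')))).Nonempty :=
    ⟨⟨0, hr ▸ hY⟩, Finset.mem_univ _⟩
  obtain ⟨j, -, hj⟩ := Finset.exists_le_of_sum_le hne hsum
  obtain ⟨y, hy⟩ := (b j).2
  have hS : S y.1 = ((b j : LinearMap.range S') : EuclideanSpace ℝ β).ofLp := by
    rw [← hy]; rfl
  have h1 : S y.1 ⬝ᵥ S y.1 = 1 := by
    have := hon.1 j
    rw [hS, dot_eq_sq]
    have h2 := EuclideanSpace.norm_sq_eq ((b j : LinearMap.range S') : EuclideanSpace ℝ β)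
    rw [this] at h2
    simpa using h2.symm
  refine ⟨y.1, y.2, fun h0 => ?_, ?_⟩
  · rw [h0] at h1; simp at h1
  · rw [h1, mul_one, hS]
    rwa [le_div_iff₀ (by exact_mod_cast hY), mul_comm] at hj

lemma frob_le_rank [DecidableEq I] (Γ : Matrix I I ℝ) {c : ℝ}
    (h : ∀ v, Γ *ᵥ v ⬝ᵥ Γ *ᵥ v ≤ c * (v ⬝ᵥ v)) :
    ∑ i, ∑ k, Γ i k ^ 2 ≤ c * Module.finrank ℝ (LinearMap.range Γ.mulVecLin) := by
  let f : EuclideanSpace ℝ I →ₗ[ℝ] (I → ℝ) :=
    Γ.mulVecLin.comp (WithLp.linearEquiv 2 ℝ (I → ℝ)).toLinearMap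
  have hrange : LinearMap.range f = LinearMap.range Γ.mulVecLin :=
    LinearMap.range_comp_of_range_eq_top _ (LinearEquiv.range _)
  let K := (LinearMap.ker f)ᗮ
  have hK : Module.finrank ℝ K = Module.finrank ℝ (LinearMap.range Γ.mulVecLin) := by
    have h1 := (LinearMap.ker f).finrank_add_finrank_orthogonal
    have h2 := f.finrank_range_add_finrank_ker
    rw [← hrange]
    change Module.finrank ℝ (LinearMap.ker f)ᗮ = _
    omega
  let b := stdOrthonormalBasis ℝ K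
  have hrow : ∀ i, WithLp.toLp 2 (Γ i) ∈ K := by
    intro i
    rw [Submodule.mem_orthogonal]
    intro u hu
    have := congrFun (LinearMap.mem_ker.1 hu) i
    rw [EuclideanSpace.inner_eq_star_dotProduct]
    simpa [f, mulVec] using this
  have h1 : ∀ i, ∑ k, Γ i k ^ 2 = ∑ j, (Γ *ᵥ ((b j : K) : EuclideanSpace ℝ I).ofLp) i ^ 2 := by
    intro i
    have := b.sum_sq_norm_inner_right (⟨_, hrow i⟩ : K)
    rw [Submodule.coe_norm, EuclideanSpace.norm_sq_eq] at this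
    simp only [Real.norm_eq_abs, sq_abs, Submodule.coe_inner,
      EuclideanSpace.inner_eq_star_dotProduct, star_trivial] at this
    exact this.symm
  simp only [h1]
  rw [Finset.sum_comm, ← hK]
  calc _ ≤ ∑ _j : Fin (Module.finrank ℝ K), c := by
        refine Finset.sum_le_sum fun j _ => ?_
        have h2 := h ((b j : K) : EuclideanSpace ℝ I).ofLp
        have h3 := EuclideanSpace.norm_sq_eq ((b j : K) : EuclideanSpace ℝ I)
        rw [← Submodule.coe_norm, b.orthonormal.1 j] at h3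
        simp only [Real.norm_eq_abs, sq_abs, one_pow] at h3
        rw [dot_eq_sq, dot_eq_sq, ← h3, mul_one] at h2
        exact h2
    _ = _ := by simp [mul_comm]

end Pool.Agent.P.MP_1157dd_an
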