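import Pool.Agent.P.MP_1157dd_an.Dual

/-! Matrix Spencer: at a local minimum at most half of the coordinates are free. -/

namespace Pool.Agent.P.MP_1157dd_an

open Matrix Filter Topology

variable {D I : Type} [Fintype D] [Fintype I] [DecidableEq D]

variable {B : I → Matrix D D ℝ} {ζ : D → ℝ} {Γ : Matrix I I ℝ} {x : I → ℝ} {p : ℕ}
  {μ β lam c : ℝ}

lemma dot_sq_le (u v : I → ℝ) : (u ⬝ᵥ v) ^ 2 ≤ (u ⬝ᵥ u) * (v ⬝ᵥ v) := by
  rw [dot_eq_sq, dot_eq_sq]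
  exact Finset.sum_mul_sq_le_sq_mul_sq _ _ _

lemma le_of_sq_le_mul {a b : ℝ} (ha : 0 ≤ a) (hb : 0 ≤ b) (h : a ^ 2 ≤ b * a) : a ≤ b := by
  rcases ha.eq_or_lt with h0 | h0
  · rwa [← h0]
  · exact le_of_mul_le_mul_right (by nlinarith) h0

lemma transpose_bound (hΓ : ∀ v, Γ *ᵥ v ⬝ᵥ Γ *ᵥ v ≤ c * (v ⬝ᵥ v)) (hc : 0 ≤ c) (a : I → ℝ) :
    ∑ k, (∑ i, Γ i k * a i) ^ 2 ≤ c * ∑ i, a i ^ 2 := by
  have e : ∑ k, (∑ i, Γ i k * a i) ^ 2 = Γᵀ *ᵥ a ⬝ᵥ Γᵀ *ᵥ a := by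
    rw [dot_eq_sq]; rfl
  rw [e, ← dot_eq_sq]
  refine le_of_sq_le_mul (dot_nonneg _) (mul_nonneg hc (dot_nonneg _)) ?_
  have h1 : Γᵀ *ᵥ a ⬝ᵥ Γᵀ *ᵥ a = a ⬝ᵥ Γ *ᵥ Γᵀ *ᵥ a := by
    rw [dotProduct_mulVec a, ← mulVec_transpose]
  have h2 := dot_sq_le a (Γ *ᵥ Γᵀ *ᵥ a)
  have h3 := mul_le_mul_of_nonneg_left (hΓ (Γᵀ *ᵥ a)) (dot_nonneg a)
  rw [← h1] at h2
  linarith

/-- projector on the small eigenvalues -/
noncomputable def PS (ζ : D → ℝ) (θ : ℝ) : Matrix D D ℝ :=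
  diagonal fun e => if ζ e ≤ θ then 1 else 0

lemma qf_PS (ζ : D → ℝ) {θ : ℝ} (hθ : 0 ≤ θ) (u : D → ℝ) :
    qf (diagonal ζ) (PS ζ θ *ᵥ u) ≤ θ * (u ⬝ᵥ u) := by
  rw [qf_diagonal, dot_eq_sq, Finset.mul_sum]
  refine Finset.sum_le_sum fun e _ => ?_
  rw [PS, mulVec_diagonal]
  split_ifs with h
  · rw [one_mul]; exact mul_le_mul_of_nonneg_right h (sq_nonneg _)
  · simp only [zero_mul, ne_eq, OfNat.ofNat_ne_zero, not_false_eq_true, zero_pow, mul_zero]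
    positivity

lemma small_part (hζ : ∀ i, 0 < ζ i)
    (hB2 : ∀ i u v, (v ⬝ᵥ B i *ᵥ u) ^ 2 ≤ qf (diagonal ζ) u * qf (diagonal ζ) v)
    (hΓ : ∀ v, Γ *ᵥ v ⬝ᵥ Γ *ᵥ v ≤ c * (v ⬝ᵥ v)) (hc : 0 ≤ c) {θ : ℝ} (hθ : 0 ≤ θ) (u : D → ℝ) :
    ∑ k, ∑ e, ((PS ζ θ * lc B (fun i => Γ i k) * PS ζ θ) *ᵥ u) e ^ 2 ≤
      c * Fintype.card I * θ ^ 2 * (u ⬝ᵥ u) := by
  have h1 : ∀ i, (PS ζ θ * B i * PS ζ θ) *ᵥ u ⬝ᵥ (PS ζ θ * B i * PS ζ θ) *ᵥ u ≤
      θ ^ 2 * (u ⬝ᵥ u) := by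
    intro i
    set w := (PS ζ θ * B i * PS ζ θ) *ᵥ u with hw
    refine le_of_sq_le_mul (dot_nonneg _) (mul_nonneg (sq_nonneg _) (dot_nonneg _)) ?_
    have e : w ⬝ᵥ w = PS ζ θ *ᵥ w ⬝ᵥ B i *ᵥ PS ζ θ *ᵥ u := by
      rw [← symm_dot (M := PS ζ θ) (diagonal_transpose _), mulVec_mulVec, mulVec_mulVec]
    have h2 := hB2 i (PS ζ θ *ᵥ u) (PS ζ θ *ᵥ w)
    rw [← e] at h2
    have h3 := mul_le_mul (qf_PS ζ hθ u) (qf_PS ζ hθ w) ((PD_diagonal hζ).nonneg _)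
      (mul_nonneg hθ (dot_nonneg _))
    linarith
  have h2 : ∀ k e, ((PS ζ θ * lc B (fun i => Γ i k) * PS ζ θ) *ᵥ u) e =
      ∑ i, Γ i k * ((PS ζ θ * B i * PS ζ θ) *ᵥ u) e := by
    intro k e
    simp only [lc, Finset.mul_sum, Finset.sum_mul, mul_smul_comm, smul_mul_assoc, sum_mulVec,
      smul_mulVec, Finset.sum_apply, Pi.smul_apply, smul_eq_mul]
  simp only [h2]
  rw [Finset.sum_comm]
  calc _ ≤ ∑ e, c * ∑ i, ((PS ζ θ * B i * PS ζ θ) *ᵥ u) e ^ 2 :=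
        Finset.sum_le_sum fun e _ => transpose_bound hΓ hc _
    _ = c * ∑ i, (PS ζ θ * B i * PS ζ θ) *ᵥ u ⬝ᵥ (PS ζ θ * B i * PS ζ θ) *ᵥ u := by
        rw [← Finset.mul_sum, Finset.sum_comm]; simp only [dot_eq_sq]
    _ ≤ c * ∑ _i : I, θ ^ 2 * (u ⬝ᵥ u) :=
        mul_le_mul_of_nonneg_left (Finset.sum_le_sum fun i _ => h1 i) hc
    _ = _ := by rw [Finset.sum_const, Finset.card_univ, nsmul_eq_mul]; ring

omit [DecidableEq D] in
lemma op_part (hB : ∀ i, (B i)ᵀ = B i) (G U : Matrix D D ℝ) (s : I → Matrix D D ℝ)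
    (hs : ∀ k, (s k)ᵀ = s k) (hs2 : ∀ u, ∑ k, ∑ e, (s k *ᵥ u) e ^ 2 ≤ 1 / 16 * (u ⬝ᵥ u))
    (hT : ∀ u, qf (TT B Γ (Gᵀ * G)) u ≤ qf (Gᵀ * G) u) :
    frob (G * ∑ k, lc B (fun i => Γ i k) * U * s k) ≤ frob (G * U) / 16 := by
  obtain ⟨W, hW⟩ : ∃ W, W = G * ∑ k, lc B (fun i => Γ i k) * U * s k := ⟨_, rfl⟩
  have e1 : frob W ≤ ∑ k, (16 / 2 * frob (W * s k) +
      1 / (2 * 16) * frob (G * (lc B (fun i => Γ i k) * U))) := by
    rw [frob_eq_trace]
    nth_rewrite 2 [hW]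
    rw [Finset.mul_sum, Finset.mul_sum, trace_sum]
    refine Finset.sum_le_sum fun k _ => ?_
    refine le_trans (le_of_eq ?_) (trace_le_frob (W * s k) (G * (lc B (fun i => Γ i k) * U))
      (by norm_num : (0 : ℝ) < 16))
    rw [transpose_mul, hs, ← mul_assoc G, ← mul_assoc Wᵀ, trace_mul_comm]
    simp only [mul_assoc]
  rw [Finset.sum_add_distrib, ← Finset.mul_sum, ← Finset.mul_sum, sum_frob_TT hB] at e1
  have a1 : ∑ j, qf (TT B Γ (Gᵀ * G)) (fun i => U i j) ≤ frob (G * U) := by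
    rw [frob_mul]; exact Finset.sum_le_sum fun j _ => hT _
  have a2 : ∑ k, frob (W * s k) ≤ 1 / 16 * frob W := by
    simp only [frob]
    rw [Finset.sum_comm, Finset.mul_sum]
    refine Finset.sum_le_sum fun a _ => ?_
    have := hs2 (W a)
    rw [dot_eq_sq] at this
    refine le_trans (le_of_eq ?_) this
    refine Finset.sum_congr rfl fun k _ => Finset.sum_congr rfl fun e _ => ?_
    nth_rewrite 2 [← hs k]
    rw [mulVec_transpose]
    rfl
  rw [← hW]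
  linarith

lemma rest_part (hB : ∀ i, (B i)ᵀ = B i) (θ : ℝ) :
    ∑ e, ∑ f, ∑ k, (lc B (fun i => Γ i k) - PS ζ θ * lc B (fun i => Γ i k) * PS ζ θ) e f ^ 2 ≤
      2 * ∑ e, if θ < ζ e then TT B Γ 1 e e else 0 := by
  have hs : ∀ k e f, lc B (fun i => Γ i k) f e = lc B (fun i => Γ i k) e f := fun k e f => by
    rw [← transpose_apply (lc B fun i => Γ i k) e f, lc_symm hB]
  have h1 : ∀ e, TT B Γ 1 e e = ∑ f, ∑ k, lc B (fun i => Γ i k) e f ^ 2 := by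
    intro e
    rw [Finset.sum_comm]
    simp only [TT, mul_one, Matrix.sum_apply, mul_apply]
    exact Finset.sum_congr rfl fun k _ => Finset.sum_congr rfl fun f _ => by rw [hs k e f, sq]
  have h2 : ∑ e, (if θ < ζ e then TT B Γ 1 e e else 0) =
      ∑ e, ∑ f, ∑ k, if θ < ζ e then lc B (fun i => Γ i k) e f ^ 2 else 0 := by
    refine Finset.sum_congr rfl fun e _ => ?_
    split_ifs
    · exact h1 e
    · simp
  have h3 : ∑ e, ∑ f, ∑ k, (if θ < ζ e then lc B (fun i => Γ i k) e f ^ 2 else 0) =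
      ∑ e, ∑ f, ∑ k, if θ < ζ f then lc B (fun i => Γ i k) e f ^ 2 else 0 := by
    rw [Finset.sum_comm]
    simp only [hs]
  rw [two_mul, h2]
  nth_rewrite 2 [h3]
  simp only [← Finset.sum_add_distrib]
  refine Finset.sum_le_sum fun e _ => Finset.sum_le_sum fun f _ => Finset.sum_le_sum fun k _ => ?_
  rw [Matrix.sub_apply, PS, mul_diagonal, diagonal_mul]
  have := sq_nonneg (lc B (fun i => Γ i k) e f)
  by_cases a : ζ e ≤ θ <;> by_cases b : ζ f ≤ θ <;> simp [a, b, not_lt.2, not_le.1, this]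

omit [DecidableEq D] in
lemma three_frob (M₁ M₂ M₃ : Matrix D D ℝ) :
    frob (M₁ + M₂ + M₃) ≤ 3 * (frob M₁ + frob M₂ + frob M₃) := by
  simp only [frob, ← Finset.sum_add_distrib, Finset.mul_sum]
  refine Finset.sum_le_sum fun i _ => Finset.sum_le_sum fun j _ => ?_
  simp only [Matrix.add_apply]
  nlinarith [sq_nonneg (M₁ i j - M₂ i j), sq_nonneg (M₁ i j - M₃ i j), sq_nonneg (M₂ i j - M₃ i j)]

omit [DecidableEq D] in
lemma trace_sq_eq {G M : Matrix D D ℝ} (hM : Mᵀ = M) :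
    (Gᵀ * G * (M * M)).trace = frob (G * M) := by
  rw [frob_eq_trace, transpose_mul, hM, ← mul_assoc, trace_mul_comm]
  simp only [mul_assoc]

omit [DecidableEq D] in
lemma TT_lc (B Us : I → Matrix D D ℝ) (Γ : Matrix I I ℝ) (y : I → ℝ) :
    TT B Γ (lc Us y) = ∑ i, y i • TT B Γ (Us i) := by
  simp only [← TT_smul]
  rw [lc]
  simp only [TT, Finset.mul_sum, Finset.sum_mul]
  exact Finset.sum_comm

omit [DecidableEq D] in
lemma hs_entry (G U : Matrix D D ℝ) (b r : I → Matrix D D ℝ) (a f : D) :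
    (G * ∑ k, b k * U * r k) a f = ∑ c, ∑ e, (G * ∑ k, r k e f • b k) a c * U c e := by
  simp only [Finset.mul_sum, mul_smul_comm, Matrix.sum_apply, Matrix.smul_apply, smul_eq_mul,
    Finset.sum_mul, ← mul_assoc]
  have : ∀ k, (G * b k * U * r k) a f = ∑ c, ∑ e, r k e f * (G * b k) a c * U c e := by
    intro k
    rw [mul_apply, Finset.sum_comm]
    refine Finset.sum_congr rfl fun e _ => ?_
    rw [mul_apply, Finset.sum_mul]
    exact Finset.sum_congr rfl fun c _ => by ring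
  simp only [this]
  rw [Finset.sum_comm]
  exact Finset.sum_congr rfl fun c _ => Finset.sum_comm

omit [DecidableEq D] in
lemma sum_four (F : D → D → D → D → ℝ) :
    ∑ a, ∑ f, ∑ c, ∑ e, F a f c e = ∑ e, ∑ f, ∑ a, ∑ c, F a f c e :=
  calc _ = ∑ f, ∑ a, ∑ c, ∑ e, F a f c e := Finset.sum_comm
    _ = ∑ f, ∑ a, ∑ e, ∑ c, F a f c e :=
      Finset.sum_congr rfl fun _ _ => Finset.sum_congr rfl fun _ _ => Finset.sum_comm
    _ = ∑ f, ∑ e, ∑ a, ∑ c, F a f c e := Finset.sum_congr rfl fun _ _ => Finset.sum_comm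
    _ = _ := Finset.sum_comm

theorem core [DecidableEq I] (h : LocMin B ζ Γ x p μ β lam c) (hB : ∀ i, (B i)ᵀ = B i)
    (hζ : ∀ i, 0 < ζ i)
    (hB2 : ∀ i u v, (v ⬝ᵥ B i *ᵥ u) ^ 2 ≤ qf (diagonal ζ) u * qf (diagonal ζ) v)
    (hp : 1 ≤ p) (hμ : 0 < μ) (hβ : 0 ≤ β) (hc : 0 < c) (hx : ∀ i, |x i| ≤ 1)
    (hΓ : ∀ v, Γ *ᵥ v ⬝ᵥ Γ *ᵥ v ≤ c * (v ⬝ᵥ v)) (hfr : 3 / 4 * (c * Fintype.card I) ≤ frob Γ)
    {w θ : ℝ} (hw : 0 < w) (hθ : 0 < θ) (hlow : ∀ e, 1 ≤ w * ζ e)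
    (hT1 : ∀ e, TT B Γ 1 e e ≤ w * ζ e) (n1 : c * Fintype.card I * θ ^ 2 ≤ 1 / 16)
    (n2 : β * c * (2 * (w * (1 / (μ * θ ^ p)))) * (w ^ p / μ) ≤ Fintype.card I / 64)
    (n3 : (p + 1) / 2 * (5 * β) < lam) :
    2 * (Finset.univ.filter fun i => |x i| < 1).card ≤ Fintype.card I := by
  classical
  by_contra hcon
  have hfo := fun v hv U hU δ hP => first_order h hζ hp hμ.le hx hΓ hc.le (v := v) hv (U := U) hU
    (δ := δ) hP
  obtain ⟨ρ, hρs, hρ0, hρ, hρ1⟩ := exists_dual (μ := μ) (p := p) (Γ := Γ) hB hζ (by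
    intro U δ hU hP
    simpa using hfo 0 (by simp) U hU δ (by simpa [lc_zero] using hP))
  have hLp : diagonal ζ ^ p = diagonal fun e => ζ e ^ p := diagonal_pow _ _
  have hPD : PD (ρ - TT B Γ ρ) := by
    rw [hρ, hLp]; exact (PD_diagonal fun e => pow_pos (hζ e) p).smul hμ
  have hsolve := fun E hE => exists_solve (Γ := Γ) hB hρs hρ0 hPD (E := E) hE
  have hadj : ∀ U, μ * (diagonal ζ ^ p * U).trace = (ρ * (U - TT B Γ U)).trace := by
    intro U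
    rw [mul_sub, trace_sub, ← TT_adj, ← trace_sub, ← sub_mul, hρ, smul_mul_assoc, trace_smul,
      smul_eq_mul]
  obtain ⟨Y, -, -, -, -, hY, -, -⟩ := spec_pos hρs (by
    have := hPD.add (TT_nonneg hB Γ hρ0)
    rwa [sub_add_cancel] at this)
  obtain ⟨G, hG⟩ : ∃ G : Matrix D D ℝ, ρ = Gᵀ * G := ⟨Yᵀ, by rw [transpose_transpose, hY]⟩
  have hTle : ∀ u, qf (TT B Γ (Gᵀ * G)) u ≤ qf (Gᵀ * G) u := fun u => by
    have := hPD.nonneg u
    rw [qf_sub, hG] at this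
    linarith
  -- isotropy
  have hiso1 : ∀ v, v ⬝ᵥ v ≤ 1 → frob (G * lc B (Γ *ᵥ v)) ≤ β * (Γ *ᵥ v ⬝ᵥ Γ *ᵥ v) := by
    intro v hv
    obtain ⟨U, hU, hU2⟩ := hsolve (-(lc B (Γ *ᵥ v) * lc B (Γ *ᵥ v)))
      (by rw [transpose_neg, transpose_mul, lc_symm hB])
    refine le_of_forall_pos_le_add fun ε hε => ?_
    have := hfo v hv U hU ε (by
      rw [hU2, neg_add_cancel_right]; exact (PD_diagonal hζ).smul hε)
    rw [hadj, hU2, mul_neg, trace_neg, hG, trace_sq_eq (lc_symm hB _)] at this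
    linarith
  have hiso : ∀ v, frob (G * lc B (Γ *ᵥ v)) ≤ β * (Γ *ᵥ v ⬝ᵥ Γ *ᵥ v) := by
    intro v
    have h0 := dot_nonneg v
    have hs : 0 < (1 + v ⬝ᵥ v)⁻¹ := by positivity
    have := hiso1 ((1 + v ⬝ᵥ v)⁻¹ • v) (by
      rw [smul_dotProduct, dotProduct_smul, smul_eq_mul, smul_eq_mul, ← mul_assoc, ← mul_inv,
        inv_mul_le_iff₀ (by positivity)]
      nlinarith)
    rw [mulVec_smul, lc_smul, mul_smul_comm, smul_dotProduct, dotProduct_smul, frob_eq_trace,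
      transpose_smul, smul_mul_assoc, mul_smul_comm, trace_smul, trace_smul, ← frob_eq_trace]
      at this
    simp only [smul_eq_mul] at this
    have h2 : (1 + v ⬝ᵥ v)⁻¹ * (1 + v ⬝ᵥ v)⁻¹ * frob (G * lc B (Γ *ᵥ v)) ≤
        (1 + v ⬝ᵥ v)⁻¹ * (1 + v ⬝ᵥ v)⁻¹ * (β * (Γ *ᵥ v ⬝ᵥ Γ *ᵥ v)) := by linarith
    exact le_of_mul_le_mul_left h2 (mul_pos hs hs)
  -- large eigenvalues
  have hlarge : ∑ e, (if θ < ζ e then TT B Γ 1 e e else 0) ≤ w * (1 / (μ * θ ^ p)) := by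
    have a1 : ∑ e, μ * ζ e ^ p * ζ e ≤ 1 := by
      rw [← hρ1]
      simp only [trace, diag_apply, mul_diagonal]
      refine Finset.sum_le_sum fun e _ => mul_le_mul_of_nonneg_right ?_ (hζ e).le
      have a := TT_nonneg hB Γ hρ0 (Pi.single e 1)
      have b := congrFun (congrFun hρ e) e
      rw [qf_single] at a
      rw [Matrix.sub_apply, hLp, Matrix.smul_apply, diagonal_apply_eq, smul_eq_mul] at b
      linarith
    have hθp : 0 < μ * θ ^ p := by positivity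
    calc _ ≤ ∑ e, w * (1 / (μ * θ ^ p)) * (μ * ζ e ^ p * ζ e) := by
          refine Finset.sum_le_sum fun e _ => ?_
          have := hζ e
          split_ifs with he
          · refine (hT1 e).trans ?_
            have a2 : μ * θ ^ p ≤ μ * ζ e ^ p :=
              mul_le_mul_of_nonneg_left (pow_le_pow_left₀ hθ.le he.le p) hμ.le
            calc w * ζ e = w * (1 / (μ * θ ^ p)) * (μ * θ ^ p * ζ e) := by field_simp
              _ ≤ _ := by gcongr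
          · positivity
      _ ≤ w * (1 / (μ * θ ^ p)) * 1 := by
          rw [← Finset.mul_sum]; gcongr
      _ = _ := mul_one _
  have hlowρ : ∀ U : Matrix D D ℝ, frob U ≤ w ^ p / μ * frob (G * U) := by
    intro U
    rw [frob_mul, ← frob_transpose, frob, Finset.mul_sum]
    refine Finset.sum_le_sum fun j _ => ?_
    have a := TT_nonneg hB Γ hρ0 fun i => U i j
    have b : qf (ρ - TT B Γ ρ) (fun i => U i j) = μ * ∑ e, ζ e ^ p * U e j ^ 2 := by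
      rw [hρ, qf_smul, hLp, qf_diagonal]
    rw [qf_sub] at b
    calc ∑ k, Uᵀ j k ^ 2 ≤ ∑ e, (w * ζ e) ^ p * U e j ^ 2 :=
          Finset.sum_le_sum fun e _ => le_mul_of_one_le_left (sq_nonneg _) (one_le_pow₀ (hlow e))
      _ = w ^ p / μ * (μ * ∑ e, ζ e ^ p * U e j ^ 2) := by
          rw [← mul_assoc, div_mul_cancel₀ _ hμ.ne', Finset.mul_sum]
          exact Finset.sum_congr rfl fun e _ => by ring
      _ ≤ _ := by
          rw [← hG]
          exact mul_le_mul_of_nonneg_left (by linarith) (by positivity)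
  -- the subspace of admissible directions
  let K : (I → ℝ) →ₗ[ℝ] ({i // ¬ |x i| < 1} → ℝ) := LinearMap.funLeft ℝ ℝ Subtype.val
  let Y₀ : Submodule ℝ (I → ℝ) := LinearMap.range Γ.mulVecLin ⊓ LinearMap.ker K
  have hdim : (Fintype.card I : ℝ) / 4 < Module.finrank ℝ Y₀ := by
    have a1 := Submodule.finrank_sup_add_finrank_inf_eq (LinearMap.range Γ.mulVecLin)
      (LinearMap.ker K)
    have a2 := Submodule.finrank_le (LinearMap.range Γ.mulVecLin ⊔ LinearMap.ker K)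
    have a3 := K.finrank_range_add_finrank_ker
    have a4 := Submodule.finrank_le (LinearMap.range K)
    rw [Module.finrank_fintype_fun_eq_card] at a2 a3 a4
    rw [Fintype.card_subtype] at a4
    have a5 := Finset.card_filter_add_card_filter_not (s := Finset.univ) fun i => |x i| < 1
    rw [Finset.card_univ] at a5
    have a6 := hfr.trans (frob_le_rank Γ hΓ)
    have a7 : 3 / 4 * (Fintype.card I : ℝ) ≤ Module.finrank ℝ (LinearMap.range Γ.mulVecLin) :=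
      le_of_mul_le_mul_left (by linarith) hc
    have a8 : 2 * Module.finrank ℝ (LinearMap.range Γ.mulVecLin) + 1 ≤
        2 * Module.finrank ℝ Y₀ + Fintype.card I := by
      simp only [Y₀]; omega
    have a9 : 2 * (Module.finrank ℝ (LinearMap.range Γ.mulVecLin) : ℝ) + 1 ≤
        2 * Module.finrank ℝ Y₀ + Fintype.card I := by exact_mod_cast a8
    linarith
  have hdim0 : 0 < Module.finrank ℝ Y₀ := by
    have : (0 : ℝ) < Module.finrank ℝ Y₀ := lt_of_le_of_lt (by positivity) hdim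
    exact_mod_cast this
  choose Us hUs hUs2 using fun i => hsolve (B i) (hB i)
  let S : (I → ℝ) →ₗ[ℝ] (D × D → ℝ) :=
    { toFun := fun y q => lc Us y q.1 q.2
      map_add' := fun y y' => by funext q; rw [lc_add]; rfl
      map_smul' := fun a y => by funext q; rw [lc_smul]; rfl }
  let s : I → Matrix D D ℝ := fun k => PS ζ θ * lc B (fun i => Γ i k) * PS ζ θ
  let r : I → Matrix D D ℝ := fun k => lc B (fun i => Γ i k) - s k
  let hk : D × D → D × D → ℝ := fun a q => (G * lc B (Γ *ᵥ fun k => r k q.2 a.2)) a.1 q.1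
  obtain ⟨y, ⟨⟨v, hv⟩, hyK⟩, hy0, hy⟩ := exists_avg S Y₀ hdim0 hk
  obtain ⟨U, hUdef⟩ : ∃ U, U = lc Us y := ⟨_, rfl⟩
  have hU : Uᵀ = U := by rw [hUdef]; exact lc_symm hUs y
  have hU2 : U - TT B Γ U = lc B y := by
    rw [hUdef, TT_lc, lc, lc, ← Finset.sum_sub_distrib]
    exact Finset.sum_congr rfl fun i _ => by rw [← smul_sub, hUs2]
  have e1 : S y ⬝ᵥ S y = frob U := by
    rw [dot_eq_sq, Fintype.sum_prod_type, hUdef]; rfl
  have e2 : ∑ a, (hk a ⬝ᵥ S y) ^ 2 = frob (G * ∑ k, lc B (fun i => Γ i k) * U * r k) := by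
    rw [Fintype.sum_prod_type, frob]
    refine Finset.sum_congr rfl fun a _ => Finset.sum_congr rfl fun f _ => ?_
    congr 1
    rw [dotProduct, Fintype.sum_prod_type, hs_entry, hUdef]
    simp only [hk, lc_mulVec]
    rfl
  have e3 : ∑ a, hk a ⬝ᵥ hk a ≤ β * c * (2 * (w * (1 / (μ * θ ^ p)))) := by
    have a1 : ∑ a, hk a ⬝ᵥ hk a = ∑ e, ∑ f, frob (G * lc B (Γ *ᵥ fun k => r k e f)) := by
      simp only [dot_eq_sq, Fintype.sum_prod_type, frob, hk]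
      exact sum_four _
    rw [a1]
    calc _ ≤ ∑ e, ∑ f, β * c * ∑ k, r k e f ^ 2 := by
          refine Finset.sum_le_sum fun e _ => Finset.sum_le_sum fun f _ => (hiso _).trans ?_
          rw [mul_assoc, ← dot_eq_sq]
          exact mul_le_mul_of_nonneg_left (hΓ _) hβ
      _ = β * c * ∑ e, ∑ f, ∑ k, r k e f ^ 2 := by simp only [Finset.mul_sum]
      _ ≤ _ := mul_le_mul_of_nonneg_left ((rest_part hB θ).trans (by linarith))
          (mul_nonneg hβ hc.le)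
  have hN := frob_nonneg (G * U)
  have b2 : frob (G * ∑ k, lc B (fun i => Γ i k) * U * r k) ≤ frob (G * U) / 16 := by
    rw [e1, e2] at hy
    have a1 : (∑ a, hk a ⬝ᵥ hk a) * frob U ≤
        β * c * (2 * (w * (1 / (μ * θ ^ p)))) * (w ^ p / μ * frob (G * U)) :=
      mul_le_mul e3 (hlowρ U) (frob_nonneg U) (by positivity)
    have a2 := mul_le_mul_of_nonneg_right n2 hN
    have a3 : (0 : ℝ) < Module.finrank ℝ Y₀ := by exact_mod_cast hdim0
    refine le_of_mul_le_mul_left ?_ a3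
    nlinarith
  have b1 : frob (G * ∑ k, lc B (fun i => Γ i k) * U * s k) ≤ frob (G * U) / 16 := by
    refine op_part hB G U s (fun k => ?_) (fun u => ?_) hTle
    · simp only [s, transpose_mul, PS, diagonal_transpose, lc_symm hB, mul_assoc]
    · exact (small_part hζ hB2 hΓ hc.le hθ.le u).trans
        (mul_le_mul_of_nonneg_right n1 (dot_nonneg u))
  have b0 : frob (G * lc B y) ≤ β * (y ⬝ᵥ y) := by
    rw [← hv]; exact hiso v
  have b3 : G * U = G * lc B y + G * ∑ k, lc B (fun i => Γ i k) * U * s k +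
      G * ∑ k, lc B (fun i => Γ i k) * U * r k := by
    rw [← mul_add, ← mul_add, add_assoc, ← Finset.sum_add_distrib, ← hU2]
    simp only [← mul_add, r, add_sub_cancel]
    rw [TT, sub_add_cancel]
  have b4 := three_frob (G * lc B y) (G * ∑ k, lc B (fun i => Γ i k) * U * s k)
    (G * ∑ k, lc B (fun i => Γ i k) * U * r k)
  rw [← b3] at b4
  have hyy : 0 < y ⬝ᵥ y :=
    lt_of_le_of_ne (dot_nonneg y) fun h0 => hy0 (dotProduct_self_eq_zero.1 h0.symm)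
  have b5 : frob (G * U) ≤ 5 * β * (y ⬝ᵥ y) := by nlinarith [mul_nonneg hβ hyy.le]
  obtain ⟨V, hV, hV2⟩ := hsolve (U * U) (by rw [transpose_mul, hU])
  have b6 := second_order h hζ hp hμ.le hx hΓ (y := y)
    (fun i hi => congrFun (LinearMap.mem_ker.1 hyK) ⟨i, hi⟩) hU hV hU2 hV2
  rw [hadj V, hV2, hG, trace_sq_eq hU] at b6
  have b7 : μ * (diagonal ζ ^ p * (U * U)).trace ≤ frob (G * U) := by
    have a1 : μ * (diagonal ζ ^ p * (U * U)).trace = ((ρ - TT B Γ ρ) * (U * U)).trace := by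
      rw [hρ, smul_mul_assoc, trace_smul, smul_eq_mul]
    have a2 : 0 ≤ (TT B Γ ρ * (U * U)).trace := by
      rw [← mul_assoc, trace_mul_comm, ← mul_assoc]
      nth_rewrite 1 [← hU]
      rw [trace_conj]
      exact Finset.sum_nonneg fun j _ => TT_nonneg hB Γ hρ0 _
    rw [a1, sub_mul, trace_sub, ← trace_sq_eq hU, ← hG]
    linarith
  have hp' : (1 : ℝ) ≤ p := by exact_mod_cast hp
  have b8 := mul_le_mul_of_nonneg_left b7 (by linarith : (0 : ℝ) ≤ ((p : ℝ) - 1) / 2)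
  have b9 := mul_le_mul_of_nonneg_left b5 (by linarith : (0 : ℝ) ≤ ((p : ℝ) + 1) / 2)
  have b10 := mul_lt_mul_of_pos_right n3 hyy
  nlinarith

end Pool.Agent.P.MP_1157dd_an
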