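import Pool.Agent.P.MP_1157dd_an.Local

/-! Matrix Spencer: the dual certificate. -/

namespace Pool.Agent.P.MP_1157dd_an

open Matrix Filter Topology

variable {D I : Type} [Fintype D] [Fintype I] [DecidableEq D]

omit [DecidableEq D] in
lemma frob_eq_trace {E : Type} [Fintype E] (M : Matrix E D ℝ) : frob M = (Mᵀ * M).trace := by
  simp only [frob, trace, diag_apply, mul_apply, transpose_apply, sq]
  exact Finset.sum_comm

omit [DecidableEq D] in
lemma frob_nonneg {E : Type} [Fintype E] (M : Matrix E D ℝ) : 0 ≤ frob M :=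
  Finset.sum_nonneg fun _ _ => Finset.sum_nonneg fun _ _ => sq_nonneg _

omit [DecidableEq D] in
lemma frob_eq_zero {E : Type} [Fintype E] {M : Matrix E D ℝ} (h : frob M ≤ 0) : M = 0 := by
  ext i j
  have h1 := (Finset.sum_eq_zero_iff_of_nonneg fun i _ =>
    Finset.sum_nonneg fun k _ => sq_nonneg (M i k)).1 (le_antisymm h (frob_nonneg M)) i
    (Finset.mem_univ _)
  have h2 := (Finset.sum_eq_zero_iff_of_nonneg fun k _ => sq_nonneg (M i k)).1 h1 j
    (Finset.mem_univ _)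
  simpa using h2

omit [DecidableEq D] in
lemma trace_conj (R M : Matrix D D ℝ) : (Mᵀ * R * M).trace = ∑ j, qf R fun i => M i j := by
  simp only [trace, diag_apply, mul_apply, transpose_apply, qf_eq, Finset.sum_mul]
  exact Finset.sum_congr rfl fun j _ => Finset.sum_comm

omit [DecidableEq D] in
lemma frob_mul (G M : Matrix D D ℝ) : frob (G * M) = ∑ j, qf (Gᵀ * G) fun i => M i j := by
  rw [frob_eq_trace, ← trace_conj, transpose_mul]
  simp only [mul_assoc]

omit [DecidableEq D] in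
lemma frob_transpose (M : Matrix D D ℝ) : frob Mᵀ = frob M := Finset.sum_comm

omit [DecidableEq D] in
lemma trace_le_frob (M N : Matrix D D ℝ) {s : ℝ} (hs : 0 < s) :
    (Mᵀ * N).trace ≤ s / 2 * frob M + 1 / (2 * s) * frob N := by
  simp only [frob, trace, diag_apply, mul_apply, transpose_apply, Finset.mul_sum,
    ← Finset.sum_add_distrib]
  rw [Finset.sum_comm]
  refine Finset.sum_le_sum fun i _ => Finset.sum_le_sum fun j _ => ?_
  have : s / 2 * M i j ^ 2 + 1 / (2 * s) * N i j ^ 2 - M i j * N i j =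
      (s * M i j - N i j) ^ 2 / (2 * s) := by field_simp; ring
  have h2 : 0 ≤ (s * M i j - N i j) ^ 2 / (2 * s) := by positivity
  linarith

variable {B : I → Matrix D D ℝ} {ζ : D → ℝ} {Γ : Matrix I I ℝ} {x : I → ℝ} {p : ℕ}
  {μ β lam c : ℝ}

lemma exists_dual (hB : ∀ i, (B i)ᵀ = B i) (hζ : ∀ i, 0 < ζ i)
    (h : ∀ (U : Matrix D D ℝ) (δ : ℝ), Uᵀ = U → PD (δ • diagonal ζ + (U - TT B Γ U)) →
      0 ≤ δ + μ * (diagonal ζ ^ p * U).trace) :
    ∃ ρ : Matrix D D ℝ, ρᵀ = ρ ∧ (∀ u, 0 ≤ qf ρ u) ∧ ρ - TT B Γ ρ = μ • diagonal ζ ^ p ∧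
      (ρ * diagonal ζ).trace = 1 := by
  let s : Set (Matrix D D ℝ × ℝ) := {q | PD q.1 ∧ q.2 < 0}
  let g : Matrix D D ℝ → ℝ → Matrix D D ℝ × ℝ := fun U δ =>
    (δ • diagonal ζ + (U - TT B Γ U), δ + μ * (diagonal ζ ^ p * U).trace)
  have gadd : ∀ U V δ ε, g (U + V) (δ + ε) = g U δ + g V ε := by
    intro U V δ ε
    simp only [g, TT_add, Prod.mk_add_mk, mul_add, trace_add, Prod.mk.injEq]
    exact ⟨by module, by ring⟩
  have gsmul : ∀ (a : ℝ) U δ, g (a • U) (a * δ) = a • g U δ := by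
    intro a U δ
    simp only [g, TT_smul, Prod.smul_mk, mul_smul_comm, trace_smul, smul_eq_mul, Prod.mk.injEq]
    exact ⟨by module, by ring⟩
  let t : Set (Matrix D D ℝ × ℝ) := {q | ∃ U δ, Uᵀ = U ∧ q = g U δ}
  have hs1 : Convex ℝ s := by
    rintro q ⟨⟨δ, hδ, h1⟩, h2⟩ q' ⟨⟨δ', hδ', h1'⟩, h2'⟩ a b ha hb hab
    refine ⟨⟨min δ δ', lt_min hδ hδ', fun u => ?_⟩, ?_⟩
    · simp only [Prod.fst_add, Prod.smul_fst, qf_add, qf_smul]
      have a1 := mul_le_mul_of_nonneg_right (min_le_left δ δ') (dot_nonneg u)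
      have a2 := mul_le_mul_of_nonneg_right (min_le_right δ δ') (dot_nonneg u)
      have a3 := mul_le_mul_of_nonneg_left (a1.trans (h1 u)) ha
      have a4 := mul_le_mul_of_nonneg_left (a2.trans (h1' u)) hb
      have : min δ δ' * (u ⬝ᵥ u) = a * (min δ δ' * (u ⬝ᵥ u)) + b * (min δ δ' * (u ⬝ᵥ u)) := by
        rw [← add_mul, hab, one_mul]
      linarith
    · exact convex_Iio (0 : ℝ) h2 h2' ha hb hab
  have hs2 : IsOpen s :=
    (isOpen_PD.preimage continuous_fst).inter (isOpen_lt continuous_snd continuous_const)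
  have ht : Convex ℝ t := by
    rintro _ ⟨U, δ, hU, rfl⟩ _ ⟨V, ε, hV, rfl⟩ a b - - -
    exact ⟨a • U + b • V, a * δ + b * ε, by
      rw [transpose_add, transpose_smul, transpose_smul, hU, hV], by rw [gadd, gsmul, gsmul]⟩
  have hd : Disjoint s t := by
    rw [Set.disjoint_left]
    rintro _ ⟨h1, h2⟩ ⟨U, δ, hU, rfl⟩
    exact absurd (h U δ hU h1) (not_le.2 h2)
  obtain ⟨f, u₀, hf1, hf2⟩ := geometric_hahn_banach_open hs1 hs2 ht hd
  have hzero : ∀ U δ, Uᵀ = U → f (g U δ) = 0 := by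
    intro U δ hU
    by_contra hne
    have := hf2 _ ⟨((u₀ - 1) / f (g U δ)) • U, ((u₀ - 1) / f (g U δ)) * δ,
      by rw [transpose_smul, hU], rfl⟩
    rw [gsmul, map_smul, smul_eq_mul, div_mul_cancel₀ _ hne] at this
    linarith
  have hu₀ : u₀ ≤ 0 := by
    have := hf2 _ ⟨0, 0, transpose_zero, rfl⟩
    rwa [hzero 0 0 transpose_zero] at this
  set τ := f (0, 1) with hτ
  let φ : D → D → ℝ := fun i j => -f (Matrix.single i j 1, 0)
  let ρ : Matrix D D ℝ := Matrix.of fun i j => (φ i j + φ j i) / 2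
  have hρs : ρᵀ = ρ := by ext i j; simp only [ρ, transpose_apply, of_apply]; ring
  have hf : ∀ (M : Matrix D D ℝ) (r : ℝ), Mᵀ = M → f (M, r) = r * τ - (ρ * M).trace := by
    intro M r hM
    have hs : ∀ i j, M j i = M i j := fun i j => by rw [← transpose_apply M i j, hM]
    have e1 : (M, r) = r • ((0 : Matrix D D ℝ), (1 : ℝ)) +
        ∑ i, ∑ j, M i j • ((Matrix.single i j 1 : Matrix D D ℝ), (0 : ℝ)) := by
      ext1
      · simp only [Prod.fst_add, Prod.smul_fst, smul_zero, zero_add, Prod.fst_sum,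
          Matrix.smul_single, smul_eq_mul, mul_one]
        exact matrix_eq_sum_single M
      · simp [Prod.snd_sum]
    have e2 : f (M, r) = r * τ - ∑ i, ∑ j, M i j * φ i j := by
      rw [e1, map_add, map_smul, map_sum]
      simp only [map_sum, map_smul, smul_eq_mul, φ, mul_neg, Finset.sum_neg_distrib, hτ]
      ring
    have e3 : ∑ i, ∑ j, M i j * φ i j = ∑ i, ∑ j, M i j * φ j i := by
      rw [Finset.sum_comm]
      exact Finset.sum_congr rfl fun i _ => Finset.sum_congr rfl fun j _ => by rw [hs i j]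
    have e4 : (ρ * M).trace = (∑ i, ∑ j, M i j * φ i j + ∑ i, ∑ j, M i j * φ j i) / 2 := by
      simp only [trace, diag_apply, mul_apply, ρ, of_apply, ← Finset.sum_add_distrib,
        Finset.sum_div]
      exact Finset.sum_congr rfl fun i _ => Finset.sum_congr rfl fun j _ => by rw [hs i j]; ring
    rw [e2, e4, ← e3]; ring
  have hL : (diagonal ζ)ᵀ = diagonal ζ := diagonal_transpose _
  have h1 : (ρ * diagonal ζ).trace = τ := by
    have := hzero 0 1 transpose_zero
    have hT : TT B Γ 0 = 0 := by simp [TT]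
    simp only [g, hT, one_smul, sub_zero, add_zero, mul_zero, trace_zero] at this
    rw [hf _ _ hL] at this
    linarith
  have hτ0 : 0 < τ := by
    have := hf1 (diagonal ζ, -1) ⟨PD_diagonal hζ, by norm_num⟩
    rw [hf _ _ hL, h1] at this
    linarith
  have hpos : ∀ u, 0 ≤ qf ρ u := by
    intro u
    refine le_of_forall_pos_le_add fun ε hε => ?_
    have hv : ∀ w, 0 ≤ qf (vecMulVec u u) w := fun w => by
      have : qf (vecMulVec u u) w = (u ⬝ᵥ w) ^ 2 := by
        simp only [qf_eq, vecMulVec_apply, dotProduct, sq, Finset.sum_mul_sum]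
        exact Finset.sum_congr rfl fun i _ => Finset.sum_congr rfl fun j _ => by ring
      rw [this]; exact sq_nonneg _
    have := hf1 ((ε / (2 * τ)) • diagonal ζ + vecMulVec u u, -(ε / (2 * τ)))
      ⟨((PD_diagonal hζ).smul (by positivity)).add hv, neg_lt_zero.2 (by positivity)⟩
    rw [hf _ _ (by rw [transpose_add, transpose_smul, hL, transpose_vecMulVec]), mul_add,
      trace_add, mul_smul_comm, trace_smul, h1, smul_eq_mul] at this
    have e : (ρ * vecMulVec u u).trace = qf ρ u := by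
      simp only [qf_eq, trace, diag_apply, mul_apply, vecMulVec_apply]
      exact Finset.sum_congr rfl fun i _ => Finset.sum_congr rfl fun j _ => by ring
    have e2 : ε / (2 * τ) * τ = ε / 2 := by field_simp
    rw [e, neg_mul, e2] at this
    linarith
  have hM : ρ - TT B Γ ρ - (τ * μ) • diagonal ζ ^ p = 0 := by
    obtain ⟨M, hMdef⟩ : ∃ M, M = ρ - TT B Γ ρ - (τ * μ) • diagonal ζ ^ p := ⟨_, rfl⟩
    have hMs : Mᵀ = M := by
      rw [hMdef, transpose_sub, transpose_sub, TT_transpose hB, hρs, transpose_smul,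
        transpose_pow, hL]
    have := hzero M 0 hMs
    simp only [g, zero_smul, zero_add] at this
    rw [hf _ _ (by rw [transpose_sub, TT_transpose hB, hMs]), mul_sub ρ, trace_sub, ← TT_adj]
      at this
    rw [← hMdef]
    apply frob_eq_zero
    rw [frob_eq_trace, hMs]
    nth_rewrite 1 [hMdef]
    rw [sub_mul, sub_mul, trace_sub, trace_sub, smul_mul_assoc, trace_smul, smul_eq_mul]
    linarith
  refine ⟨τ⁻¹ • ρ, by rw [transpose_smul, hρs], fun u => ?_, ?_, ?_⟩
  · rw [qf_smul]; exact mul_nonneg (inv_nonneg.2 hτ0.le) (hpos u)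
  · rw [TT_smul, ← smul_sub, sub_eq_zero.1 hM, smul_smul, ← mul_assoc, inv_mul_cancel₀ hτ0.ne',
      one_mul]
  · rw [smul_mul_assoc, trace_smul, h1, smul_eq_mul, inv_mul_cancel₀ hτ0.ne']

omit [DecidableEq D] in
lemma sum_frob_TT (hB : ∀ i, (B i)ᵀ = B i) (G U : Matrix D D ℝ) :
    ∑ k, frob (G * (lc B (fun i => Γ i k) * U)) = ∑ j, qf (TT B Γ (Gᵀ * G)) fun i => U i j := by
  simp only [TT, qf_sum]
  rw [Finset.sum_comm]
  refine Finset.sum_congr rfl fun k _ => ?_
  rw [← mul_assoc, frob_mul, transpose_mul, lc_symm hB]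
  simp only [mul_assoc]

lemma exists_solve (hB : ∀ i, (B i)ᵀ = B i) {ρ : Matrix D D ℝ} (hs : ρᵀ = ρ)
    (hpos : ∀ u, 0 ≤ qf ρ u) (hP : PD (ρ - TT B Γ ρ)) {E : Matrix D D ℝ} (hE : Eᵀ = E) :
    ∃ U : Matrix D D ℝ, Uᵀ = U ∧ U - TT B Γ U = E := by
  have hρ : PD ρ := by
    have := hP.add (TT_nonneg hB Γ hpos)
    rwa [sub_add_cancel] at this
  obtain ⟨Y, H, -, -, -, hY, h1, h2⟩ := spec_pos hs hρ
  let L : Matrix D D ℝ →ₗ[ℝ] Matrix D D ℝ :=
    { toFun := fun U => U - TT B Γ U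
      map_add' := fun U V => by rw [TT_add]; abel
      map_smul' := fun a U => by rw [TT_smul, smul_sub]; rfl }
  have h3 : Hᵀ * Yᵀ = 1 := by rw [← transpose_mul, h1, transpose_one]
  have h4 : Yᵀ * Hᵀ = 1 := by rw [← transpose_mul, h2, transpose_one]
  have hle : ∀ M : Matrix D D ℝ, ∑ k, frob (Yᵀ * (lc B (fun i => Γ i k) * M)) ≤ frob (Yᵀ * M) ∧
      (frob (Yᵀ * M) ≤ ∑ k, frob (Yᵀ * (lc B (fun i => Γ i k) * M)) → M = 0) := by
    intro M
    obtain ⟨δ, hδ, hq⟩ := hP
    have e : δ * frob M ≤ frob (Yᵀ * M) - ∑ k, frob (Yᵀ * (lc B (fun i => Γ i k) * M)) := by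
      rw [sum_frob_TT hB, frob_mul, transpose_transpose, hY, ← Finset.sum_sub_distrib,
        ← frob_transpose, frob, Finset.mul_sum]
      refine Finset.sum_le_sum fun j _ => ?_
      rw [← qf_sub]
      have := hq fun i => M i j
      rwa [dot_eq_sq] at this
    refine ⟨by nlinarith [frob_nonneg M], fun h => frob_eq_zero ?_⟩
    by_contra hn
    nlinarith [not_le.1 hn]
  have hinj : Function.Injective L := by
    rw [injective_iff_map_eq_zero]
    intro U hU
    have hU' : U = TT B Γ U := sub_eq_zero.1 hU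
    obtain ⟨W, hW⟩ : ∃ W, W = Yᵀ * (U * Hᵀ) := ⟨_, rfl⟩
    have hW2 : W = ∑ k, Yᵀ * (lc B (fun i => Γ i k) * (U * Hᵀ)) *
        (Yᵀ * lc B (fun i => Γ i k) * Hᵀ) := by
      rw [hW]
      nth_rewrite 1 [hU']
      rw [TT, Finset.sum_mul, Finset.mul_sum]
      refine Finset.sum_congr rfl fun k _ => ?_
      simp only [mul_assoc]
      rw [← mul_assoc Hᵀ Yᵀ, h3, one_mul]
    have e1 : frob W ≤ ∑ k, (1 / 2 * frob (Yᵀ * (lc B (fun i => Γ i k) * (Hᵀ * Wᵀ))) +
        1 / (2 * 1) * frob (Yᵀ * (lc B (fun i => Γ i k) * (U * Hᵀ)))) := by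
      rw [frob_eq_trace]
      nth_rewrite 2 [hW2]
      rw [Finset.mul_sum, trace_sum]
      refine Finset.sum_le_sum fun k _ => ?_
      have := trace_le_frob (Yᵀ * (lc B (fun i => Γ i k) * (Hᵀ * Wᵀ)))ᵀ
        (Yᵀ * (lc B (fun i => Γ i k) * (U * Hᵀ))) one_pos
      rw [transpose_transpose, frob_transpose] at this
      refine le_trans (le_of_eq ?_) this
      rw [← mul_assoc Wᵀ, trace_mul_comm]
      simp only [mul_assoc]
    rw [Finset.sum_add_distrib, ← Finset.mul_sum, ← Finset.mul_sum] at e1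
    have a1 := (hle (Hᵀ * Wᵀ)).1
    rw [← mul_assoc Yᵀ Hᵀ, h4, one_mul, frob_transpose] at a1
    have a2 := (hle (U * Hᵀ)).2 (by rw [← hW]; linarith)
    calc U = U * Hᵀ * Yᵀ := by rw [mul_assoc, h3, mul_one]
      _ = 0 := by rw [a2, zero_mul]
  obtain ⟨U, hU⟩ := LinearMap.injective_iff_surjective.1 hinj E
  refine ⟨U, hinj ?_, hU⟩
  change Uᵀ - TT B Γ Uᵀ = L U
  rw [← TT_transpose hB, ← transpose_sub, hU]
  exact (congrArg transpose hU).trans hE

end Pool.Agent.P.MP_1157dd_an
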