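import Pool.Agent.P.MP_1157dd_an.Part

/-! Matrix Spencer: iteration of the half colouring step and the hermitian dilation. -/

namespace Pool.Agent.P.MP_1157dd_an

open Matrix

variable {D : Type} [Fintype D] [DecidableEq D]

omit [Fintype D] [DecidableEq D] in
lemma lc_sub_type {I : Type} [Fintype I] [DecidableEq I] (A : I → Matrix D D ℝ) (F : Finset I)
    (y : {i // i ∈ F} → ℝ) :
    lc (fun i : {i // i ∈ F} => A i) y = lc A fun i => if h : i ∈ F then y ⟨i, h⟩ else 0 := by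
  rw [lc, lc, ← Finset.sum_subset (Finset.subset_univ F) (fun i _ hi => by simp [hi]),
    ← Finset.sum_coe_sort F]
  exact Finset.sum_congr rfl fun i _ => by simp [i.2]

theorem full_colouring [Nonempty D] (n : ℕ) : ∀ (I : Type) [Fintype I] [DecidableEq I],
    Fintype.card I = n → ∀ (A : I → Matrix D D ℝ), (∀ i, (A i)ᵀ = A i) →
    (∀ i u, A i *ᵥ u ⬝ᵥ A i *ᵥ u ≤ u ⬝ᵥ u) →
    (∀ (y : I → ℝ) (s : ℝ), (∀ u, qf (lc A y) u ≤ s * (u ⬝ᵥ u)) →
      ∀ u, -qf (lc A y) u ≤ s * (u ⬝ᵥ u)) → ∀ p : ℕ, 3 ≤ p →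
    (n ≠ 0 → Fintype.card D ≤ 2 ^ p * n) → ∀ x₀ : I → ℝ, (∀ i, |x₀ i| ≤ 1) →
    ∃ ε : I → ℝ, (∀ i, ε i = 1 ∨ ε i = -1) ∧
      ∀ u, qf (lc A (ε - x₀)) u ≤ 2 ^ 29 * √((p + 1) * n) * (u ⬝ᵥ u) := by
  induction n using Nat.strong_induction_on with
  | _ n ih =>
  intro I _ _ hn A hA hA1 hsym p hp hd x₀ hx₀
  rcases Nat.eq_zero_or_pos n with rfl | hpos
  · have : IsEmpty I := Fintype.card_eq_zero_iff.1 hn
    exact ⟨fun _ => 1, fun _ => Or.inl rfl, fun u => by simp [lc, qf]⟩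
  have : Nonempty I := Fintype.card_pos_iff.1 (hn ▸ hpos)
  obtain ⟨x, hx, hcard, hq⟩ := half_colouring hA hA1 hsym (p := p) (by omega)
    (hn ▸ hd hpos.ne') hx₀
  rw [hn] at hcard hq
  obtain ⟨F, hF1, -, hF2⟩ := Finset.exists_subsuperset_card_eq (n := n / 2)
    (Finset.subset_univ (Finset.univ.filter fun i => |x i| < 1)) (by omega)
    (by rw [Finset.card_univ, hn]; omega)
  obtain ⟨ε', h1, h2⟩ := ih (n / 2) (by omega) {i // i ∈ F} (by simpa using hF2)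
    (fun i => A i) (fun i => hA i) (fun i => hA1 i)
    (fun y s => by rw [lc_sub_type]; exact hsym _ s) (p + 2) (by omega)
    (fun h0 => (hd hpos.ne').trans (by
      rw [pow_add, mul_assoc]; exact Nat.mul_le_mul_left _ (by omega)))
    (fun i => x i) (fun i => hx i)
  refine ⟨fun i => if h : i ∈ F then ε' ⟨i, h⟩ else x i, fun i => ?_, fun u => ?_⟩
  · by_cases h : i ∈ F
    · simpa [h] using h1 ⟨i, h⟩
    · have h3 : ¬ |x i| < 1 := fun h3 => h (hF1 (by simpa using h3))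
      simpa [h] using eq_or_eq_neg_of_abs_eq (le_antisymm (hx i) (not_lt.1 h3))
  · have e : ((fun i => if h : i ∈ F then ε' ⟨i, h⟩ else x i) - x₀) = (x - x₀) +
        fun i => if h : i ∈ F then (ε' - fun i : {i // i ∈ F} => x i) ⟨i, h⟩ else 0 := by
      funext i
      by_cases h : i ∈ F <;> simp [h]
    rw [e, lc_add, ← lc_sub_type, qf_add]
    have a1 : √((((p + 2 : ℕ) : ℝ) + 1) * ((n / 2 : ℕ) : ℝ)) ≤ 7 / 8 * √((p + 1) * n) := by
      rw [Real.sqrt_le_iff]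
      refine ⟨by positivity, ?_⟩
      rw [mul_pow, Real.sq_sqrt (by positivity)]
      have b1 : ((n / 2 : ℕ) : ℝ) ≤ n / 2 := Nat.cast_div_le
      have b2 : (3 : ℝ) ≤ p := by exact_mod_cast hp
      have b3 : (0 : ℝ) ≤ n := by positivity
      push_cast
      nlinarith [mul_nonneg (sub_nonneg.2 b2) b3]
    nlinarith [hq u, h2 u, mul_le_mul_of_nonneg_right a1 (dot_nonneg u)]

lemma qf_dil {d : ℕ} (M : Matrix (Fin d) (Fin d) ℝ) (u v : Fin d → ℝ) :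
    qf (fromBlocks 0 M Mᵀ 0) (Sum.elim u v) = 2 * (u ⬝ᵥ M *ᵥ v) := by
  rw [qf, fromBlocks_mulVec]
  simp only [zero_mulVec, zero_add, add_zero, Sum.elim_comp_inl, Sum.elim_comp_inr,
    sumElim_dotProduct_sumElim]
  rw [dotProduct_mulVec v, vecMul_transpose, dotProduct_comm]
  ring

theorem spencer : ∃ C : ℝ, ∀ (d n : ℕ) (A : Fin n → Matrix (Fin d) (Fin d) ℝ),
    (∀ i, ‖Matrix.toEuclideanCLM (𝕜 := ℝ) (A i)‖ ≤ 1) →
    ∃ ε : Fin n → ℝ, (∀ i, ε i = 1 ∨ ε i = -1) ∧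
      ‖Matrix.toEuclideanCLM (𝕜 := ℝ) (∑ i, ε i • A i)‖ ≤
        C * Real.sqrt (n : ℝ) * max 1 (Real.sqrt (Real.log ((d : ℝ) / (n : ℝ)))) := by
  refine ⟨2 ^ 29 * 3, fun d n A hA => ?_⟩
  rcases Nat.eq_zero_or_pos n with rfl | hn
  · exact ⟨fun _ => 1, fun _ => Or.inl rfl, by simp⟩
  rcases Nat.eq_zero_or_pos d with rfl | hd
  · refine ⟨fun _ => 1, fun _ => Or.inl rfl, ?_⟩
    rw [Subsingleton.elim (∑ i, (1 : ℝ) • A i) 0, map_zero, norm_zero]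
    positivity
  have : Nonempty (Fin d) := ⟨⟨0, hd⟩⟩
  have hA1 : ∀ i v, A i *ᵥ v ⬝ᵥ A i *ᵥ v ≤ 1 * (v ⬝ᵥ v) := by
    intro i v
    have h1 := (Matrix.toEuclideanCLM (𝕜 := ℝ) (A i)).le_of_opNorm_le (hA i) (WithLp.toLp 2 v)
    rw [one_mul] at h1
    have h2 := pow_le_pow_left₀ (norm_nonneg _) h1 2
    rw [EuclideanSpace.norm_sq_eq, EuclideanSpace.norm_sq_eq] at h2
    simpa [dot_eq_sq] using h2
  have hlc : ∀ y : Fin n → ℝ, lc (fun i => fromBlocks 0 (A i) (A i)ᵀ 0) y =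
      fromBlocks 0 (lc A y) (lc A y)ᵀ 0 := by
    intro y
    ext (i | i) (j | j) <;> simp [lc, Matrix.sum_apply]
  obtain ⟨k, hk⟩ : ∃ k, k = Nat.log 2 (d / n) := ⟨_, rfl⟩
  obtain ⟨ε, h1, h2⟩ := full_colouring (D := Fin d ⊕ Fin d) n (Fin n) (Fintype.card_fin n)
    (fun i => fromBlocks 0 (A i) (A i)ᵀ 0) (fun i => by simp [fromBlocks_transpose])
    (fun i u => by
      rw [← Sum.elim_comp_inl_inr u, fromBlocks_mulVec]
      simp only [zero_mulVec, zero_add, add_zero, Sum.elim_comp_inl, Sum.elim_comp_inr,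
        sumElim_dotProduct_sumElim]
      have a1 := hA1 i (u ∘ Sum.inr)
      have a2 := transpose_bound (hA1 i) zero_le_one (u ∘ Sum.inl)
      rw [← dot_eq_sq (u ∘ Sum.inl)] at a2
      rw [dot_eq_sq ((A i)ᵀ *ᵥ _)]
      have a3 : ∑ k, ((A i)ᵀ *ᵥ (u ∘ Sum.inl)) k ^ 2 = ∑ k, (∑ j, A i j k * (u ∘ Sum.inl) j) ^ 2 :=
        rfl
      linarith)
    (fun y s h u => by
      have := h (Sum.elim (u ∘ Sum.inl) (-(u ∘ Sum.inr)))
      rw [← Sum.elim_comp_inl_inr u]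
      rw [hlc, qf_dil, sumElim_dotProduct_sumElim] at this ⊢
      simpa [mulVec_neg] using this)
    (k + 3) (by omega) (fun _ => by
      have a1 : d / n < 2 ^ (k + 1) := hk ▸ Nat.lt_pow_succ_log_self (by norm_num) _
      have a2 : d < (d / n + 1) * n := by
        have := Nat.lt_mul_div_succ d hn
        rwa [mul_comm] at this
      have a3 : (d / n + 1) * n ≤ 2 ^ (k + 1) * n := Nat.mul_le_mul_right _ a1
      have a4 : 2 ^ (k + 3) * n = 4 * (2 ^ (k + 1) * n) := by ring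
      simp only [Fintype.card_sum, Fintype.card_fin]
      omega) 0 (by simp)
  refine ⟨ε, h1, ?_⟩
  obtain ⟨s, hs⟩ : ∃ s : ℝ, s = 2 ^ 29 * √((((k + 3 : ℕ) : ℝ) + 1) * n) := ⟨_, rfl⟩
  have hn' : (0 : ℝ) < n := by exact_mod_cast hn
  have hs0 : 0 < s := by rw [hs]; positivity
  rw [← hs, sub_zero, hlc] at h2
  have h3 : ‖Matrix.toEuclideanCLM (𝕜 := ℝ) (lc A ε)‖ ≤ s := by
    refine ContinuousLinearMap.opNorm_le_bound _ hs0.le fun v => ?_
    have a1 := h2 (Sum.elim (lc A ε *ᵥ v.ofLp) (s • v.ofLp))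
    rw [qf_dil, sumElim_dotProduct_sumElim, mulVec_smul, dotProduct_smul, smul_dotProduct,
      dotProduct_smul] at a1
    simp only [smul_eq_mul] at a1
    have a2 : lc A ε *ᵥ v.ofLp ⬝ᵥ lc A ε *ᵥ v.ofLp ≤ s ^ 2 * (v.ofLp ⬝ᵥ v.ofLp) :=
      le_of_mul_le_mul_left (by linarith) hs0
    refine abs_le_of_sq_le_sq' ?_ (by positivity) |>.2
    rw [mul_pow, EuclideanSpace.norm_sq_eq, EuclideanSpace.norm_sq_eq]
    simpa [dot_eq_sq] using a2
  refine h3.trans ?_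
  obtain ⟨m, hm⟩ : ∃ m : ℝ, m = max 1 √(Real.log ((d : ℝ) / n)) := ⟨_, rfl⟩
  have hm1 : 1 ≤ m := hm ▸ le_max_left _ _
  have hm2 : Real.log ((d : ℝ) / n) ≤ m ^ 2 :=
    (Real.sqrt_le_iff.1 (hm ▸ le_max_right _ _)).2
  have hk2 : (k : ℝ) ≤ 2 * m ^ 2 := by
    rcases Nat.eq_zero_or_pos (d / n) with h0 | h0
    · rw [hk, h0]; simp only [Nat.log_zero_right, Nat.cast_zero]; positivity
    · have a1 : 2 ^ k ≤ d / n := hk ▸ Nat.pow_log_le_self 2 h0.ne'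
      have a2 : (2 : ℝ) ^ k ≤ (d : ℝ) / n := le_trans (by exact_mod_cast a1) Nat.cast_div_le
      have a3 := Real.log_le_log (by positivity) a2
      rw [Real.log_pow] at a3
      have a4 := Real.log_two_gt_d9
      nlinarith [Nat.cast_nonneg (α := ℝ) k]
  rw [← hm, hs, mul_assoc, mul_assoc]
  refine mul_le_mul_of_nonneg_left ?_ (by positivity)
  rw [Real.sqrt_le_iff]
  refine ⟨by positivity, ?_⟩
  rw [mul_pow, mul_pow, Real.sq_sqrt hn'.le]
  push_cast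
  nlinarith [mul_le_mul_of_nonneg_right hk2 hn'.le, one_le_pow₀ hm1 (n := 2)]

end Pool.Agent.P.MP_1157dd_an
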