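import Pool.Agent.P.MP_1157dd_an.Basic

/-! Matrix Spencer: consequences of local optimality. -/

namespace Pool.Agent.P.MP_1157dd_an

open Matrix Filter Topology

variable {D I : Type} [Fintype D] [Fintype I] [DecidableEq D]

lemma spec {Z : Matrix D D ℝ} (h : Zᵀ = Z) : ∃ (O : Matrix D D ℝ) (ζ : D → ℝ),
    Oᵀ * O = 1 ∧ O * Oᵀ = 1 ∧ Z = O * diagonal ζ * Oᵀ := by
  have hH : Z.IsHermitian := by
    rw [IsHermitian, conjTranspose_eq_transpose_of_trivial, h]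
  refine ⟨hH.eigenvectorUnitary, hH.eigenvalues, ?_, ?_, ?_⟩
  · have := (Unitary.mem_iff.1 hH.eigenvectorUnitary.2).1
    rwa [star_eq_conjTranspose, conjTranspose_eq_transpose_of_trivial] at this
  · have := (Unitary.mem_iff.1 hH.eigenvectorUnitary.2).2
    rwa [star_eq_conjTranspose, conjTranspose_eq_transpose_of_trivial] at this
  · have := hH.spectral_theorem
    rw [Unitary.conjStarAlgAut_apply, star_eq_conjTranspose,
      conjTranspose_eq_transpose_of_trivial] at this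
    simpa using this

lemma spec_pos {Z : Matrix D D ℝ} (h : Zᵀ = Z) (hp : PD Z) :
    ∃ (Y H : Matrix D D ℝ) (ζ : D → ℝ), (∀ i, 0 < ζ i) ∧ Yᵀ * Y = diagonal ζ ∧ Y * Yᵀ = Z ∧
      Y * H = 1 ∧ H * Y = 1 := by
  obtain ⟨O, ζ, h1, h2, h3⟩ := spec h
  have hd : Oᵀ * Z * O = diagonal ζ := by
    rw [h3, ← mul_assoc, ← mul_assoc, h1, one_mul, mul_assoc, h1, mul_one]
  have hζ : ∀ i, 0 < ζ i := by
    intro i
    obtain ⟨δ, hδ, hq⟩ := hp
    have a1 := hq (O *ᵥ Pi.single i 1)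
    rw [← qf_conj, hd, qf_single, diagonal_apply_eq, ← qf_one, ← qf_conj, mul_one, h1,
      qf_single, one_apply_eq] at a1
    linarith
  have hs : diagonal (fun i => √(ζ i)) * diagonal (fun i => √(ζ i)) = diagonal ζ := by
    rw [diagonal_mul_diagonal]; congr 1; funext i; exact Real.mul_self_sqrt (hζ i).le
  have hi : diagonal (fun i => √(ζ i)) * diagonal (fun i => (√(ζ i))⁻¹) = 1 := by
    rw [diagonal_mul_diagonal, ← diagonal_one]; congr 1; funext i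
    exact mul_inv_cancel₀ (Real.sqrt_pos.2 (hζ i)).ne'
  have hYH : O * diagonal (fun i => √(ζ i)) * (diagonal (fun i => (√(ζ i))⁻¹) * Oᵀ) = 1 := by
    rw [mul_assoc, ← mul_assoc (diagonal _), hi, one_mul, h2]
  refine ⟨O * diagonal fun i => √(ζ i), diagonal (fun i => (√(ζ i))⁻¹) * Oᵀ, ζ, hζ, ?_, ?_, hYH,
    mul_eq_one_comm.1 hYH⟩
  · rw [transpose_mul, diagonal_transpose, mul_assoc, ← mul_assoc Oᵀ, h1, one_mul, hs]
  · rw [transpose_mul, diagonal_transpose, mul_assoc, ← mul_assoc (diagonal _), hs, h3, mul_assoc]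

/-- linear combination -/
def lc (B : I → Matrix D D ℝ) (y : I → ℝ) : Matrix D D ℝ := ∑ i, y i • B i

/-- the completely positive map attached to the covariance factor `Γ` -/
def TT (B : I → Matrix D D ℝ) (Γ : Matrix I I ℝ) (U : Matrix D D ℝ) : Matrix D D ℝ :=
  ∑ k, lc B (fun i => Γ i k) * U * lc B (fun i => Γ i k)

/-- squared Frobenius norm -/
def frob {α β : Type} [Fintype α] [Fintype β] (M : Matrix α β ℝ) : ℝ := ∑ i, ∑ k, M i k ^ 2

omit [Fintype D] [DecidableEq D] in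
lemma lc_symm {B : I → Matrix D D ℝ} (hB : ∀ i, (B i)ᵀ = B i) (y : I → ℝ) :
    (lc B y)ᵀ = lc B y := by
  simp [lc, transpose_sum, hB]

omit [Fintype D] [DecidableEq D] in
lemma lc_add (B : I → Matrix D D ℝ) (y y' : I → ℝ) : lc B (y + y') = lc B y + lc B y' := by
  simp [lc, add_smul, Finset.sum_add_distrib]

omit [Fintype D] [DecidableEq D] in
lemma lc_smul (B : I → Matrix D D ℝ) (a : ℝ) (y : I → ℝ) : lc B (a • y) = a • lc B y := by
  simp [lc, Finset.smul_sum, smul_smul]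

omit [Fintype D] [DecidableEq D] in
lemma lc_zero (B : I → Matrix D D ℝ) : lc B 0 = 0 := by simp [lc]

omit [Fintype D] [DecidableEq D] in
lemma lc_mulVec (B : I → Matrix D D ℝ) (Γ : Matrix I I ℝ) (v : I → ℝ) :
    lc B (Γ *ᵥ v) = ∑ k, v k • lc B (fun i => Γ i k) := by
  simp only [lc, mulVec, dotProduct, Finset.sum_smul, Finset.smul_sum, smul_smul]
  rw [Finset.sum_comm]
  exact Finset.sum_congr rfl fun k _ => Finset.sum_congr rfl fun i _ => by rw [mul_comm]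

omit [DecidableEq D] in
lemma TT_add (B : I → Matrix D D ℝ) (Γ : Matrix I I ℝ) (U V : Matrix D D ℝ) :
    TT B Γ (U + V) = TT B Γ U + TT B Γ V := by
  simp [TT, mul_add, add_mul, Finset.sum_add_distrib]

omit [DecidableEq D] in
lemma TT_smul (B : I → Matrix D D ℝ) (Γ : Matrix I I ℝ) (a : ℝ) (U : Matrix D D ℝ) :
    TT B Γ (a • U) = a • TT B Γ U := by
  simp [TT, Finset.smul_sum]

omit [DecidableEq D] in
lemma TT_transpose {B : I → Matrix D D ℝ} (hB : ∀ i, (B i)ᵀ = B i) (Γ : Matrix I I ℝ)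
    (U : Matrix D D ℝ) : (TT B Γ U)ᵀ = TT B Γ Uᵀ := by
  simp [TT, transpose_sum, transpose_mul, lc_symm hB, mul_assoc]

omit [DecidableEq D] in
lemma TT_adj (B : I → Matrix D D ℝ) (Γ : Matrix I I ℝ) (U V : Matrix D D ℝ) :
    (TT B Γ U * V).trace = (U * TT B Γ V).trace := by
  simp only [TT, Finset.sum_mul, Finset.mul_sum, trace_sum]
  refine Finset.sum_congr rfl fun k _ => ?_
  rw [mul_assoc, mul_assoc, trace_mul_comm]
  simp only [mul_assoc]

omit [DecidableEq D] in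
lemma TT_nonneg {B : I → Matrix D D ℝ} (hB : ∀ i, (B i)ᵀ = B i) (Γ : Matrix I I ℝ)
    {U : Matrix D D ℝ} (hU : ∀ u, 0 ≤ qf U u) (u : D → ℝ) : 0 ≤ qf (TT B Γ U) u := by
  rw [TT, qf_sum]
  refine Finset.sum_nonneg fun k _ => ?_
  have := qf_conj U (lc B fun i => Γ i k) u
  rw [lc_symm hB] at this
  rw [this]; exact hU _

/-- local optimality in normalised coordinates -/
def LocMin (B : I → Matrix D D ℝ) (ζ : D → ℝ) (Γ : Matrix I I ℝ) (x : I → ℝ) (p : ℕ)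
    (μ β lam c : ℝ) : Prop :=
  ∀ (y : I → ℝ) (Γ' : Matrix I I ℝ) (E : Matrix D D ℝ) (δ : ℝ), (∀ i, |x i + y i| ≤ 1) →
    (∀ v, Γ' *ᵥ v ⬝ᵥ Γ' *ᵥ v ≤ c * (v ⬝ᵥ v)) → Eᵀ = E →
    (∀ u, 0 ≤ qf ((1 / 2 : ℝ) • 1 + E) u) →
    (∀ u, 0 ≤ qf (δ • diagonal ζ - lc B y + TT B Γ 1 - TT B Γ' (1 + E) + E - E * E + E * E * E -
      (2 : ℝ) • (E * E * (E * E))) u) →
    0 ≤ δ + μ / p * (((diagonal ζ * (1 + E)) ^ p).trace - (diagonal ζ ^ p).trace) +
      β * (frob Γ - frob Γ') - lam * (∑ i, (x i + y i) ^ 2 - ∑ i, x i ^ 2)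

lemma obj_expand {ζ : D → ℝ} (hζ : ∀ i, 0 ≤ ζ i) {U : Matrix D D ℝ} (hU : Uᵀ = U)
    (V : Matrix D D ℝ) {p : ℕ} (hp : 1 ≤ p) {μ : ℝ} (hμ : 0 ≤ μ) :
    ∃ (g : ℝ) (r : ℝ → ℝ), Continuous r ∧
      g ≤ ((p : ℝ) - 1) / 2 * (μ * (diagonal ζ ^ p * (U * U)).trace) +
        μ * (diagonal ζ ^ p * V).trace ∧
      ∀ t : ℝ, μ / p * (((diagonal ζ * (1 + (t • U + t ^ 2 • V))) ^ p).trace -
        (diagonal ζ ^ p).trace) =
        t * (μ * (diagonal ζ ^ p * U).trace) + t ^ 2 * g + t ^ 3 * r t := by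
  obtain ⟨R, hR, h⟩ := pow_expand (diagonal ζ) (diagonal ζ * U) (diagonal ζ * V) p
  have hp' : (0 : ℝ) < p := by exact_mod_cast hp
  refine ⟨μ / p * (P2 (diagonal ζ) (diagonal ζ * U) (diagonal ζ * V) p).trace,
    fun t => μ / p * (R t).trace, by fun_prop, ?_, fun t => ?_⟩
  · have := trace_P2 hζ hU V p 0
    rw [pow_zero, mul_one, add_zero] at this
    refine (mul_le_mul_of_nonneg_left this (div_nonneg hμ hp'.le)).trans (le_of_eq ?_)
    field_simp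
  · have e : diagonal ζ * (1 + (t • U + t ^ 2 • V)) =
        diagonal ζ + t • (diagonal ζ * U) + t ^ 2 • (diagonal ζ * V) := by
      simp only [mul_add, mul_one, mul_smul_comm, add_assoc]
    have h1 := trace_P1 (diagonal ζ) U p 0
    rw [pow_zero, mul_one, add_zero] at h1
    rw [e, h]
    simp only [trace_add, trace_smul, smul_eq_mul, h1]
    field_simp
    ring

lemma nonneg_of_eventually {f : ℝ → ℝ} (hf : Continuous f) {k : ℕ}
    (h : ∀ᶠ t in 𝓝[>] (0 : ℝ), 0 ≤ t ^ k * f t) : 0 ≤ f 0 := by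
  have h1 : Tendsto f (𝓝[>] 0) (𝓝 (f 0)) := hf.continuousAt.tendsto.mono_left nhdsWithin_le_nhds
  refine ge_of_tendsto h1 ?_
  filter_upwards [h, self_mem_nhdsWithin] with t ht h0
  exact nonneg_of_mul_nonneg_right ht (pow_pos h0 k)

lemma half_eventually {E : ℝ → Matrix D D ℝ} (hc : Continuous E) (h0 : E 0 = 0) :
    ∀ᶠ t in 𝓝 (0 : ℝ), ∀ u, 0 ≤ qf ((1 / 2 : ℝ) • 1 + E t) u := by
  have : ∀ᶠ t in 𝓝 (0 : ℝ), PD ((1 / 2 : ℝ) • (1 : Matrix D D ℝ) + E t) := by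
    apply eventually_PD (by fun_prop)
    rw [h0, add_zero, ← diagonal_one]
    exact (PD_diagonal fun _ => one_pos).smul (by norm_num)
  filter_upwards [this] with t ht using ht.nonneg

variable {B : I → Matrix D D ℝ} {ζ : D → ℝ} {Γ : Matrix I I ℝ} {x : I → ℝ} {p : ℕ}
  {μ β lam c : ℝ}

lemma exists_shrink (B : I → Matrix D D ℝ) (hΓ : ∀ v, Γ *ᵥ v ⬝ᵥ Γ *ᵥ v ≤ c * (v ⬝ᵥ v))
    (hc : 0 ≤ c) {v : I → ℝ} (hv : v ⬝ᵥ v ≤ 1) {t : ℝ} (h0 : 0 ≤ t) (h1 : t ≤ 1) :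
    ∃ Γ' : Matrix I I ℝ, (∀ v, Γ' *ᵥ v ⬝ᵥ Γ' *ᵥ v ≤ c * (v ⬝ᵥ v)) ∧
      frob Γ - frob Γ' = t * (Γ *ᵥ v ⬝ᵥ Γ *ᵥ v) ∧
      ∀ Y, TT B Γ' Y = TT B Γ Y - t • (lc B (Γ *ᵥ v) * Y * lc B (Γ *ᵥ v)) := by
  obtain ⟨s, -, hs⟩ : ∃ s ∈ Set.Icc (0 : ℝ) 1, 2 * s - s ^ 2 * (v ⬝ᵥ v) = t := by
    apply intermediate_value_Icc zero_le_one (f := fun s => 2 * s - s ^ 2 * (v ⬝ᵥ v))
      (by fun_prop)
    constructor
    · simpa using h0
    · linarith
  refine ⟨Matrix.of fun i k => Γ i k - s * (Γ *ᵥ v) i * v k, fun w => ?_, ?_, fun Y => ?_⟩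
  · have e : (Matrix.of fun i k => Γ i k - s * (Γ *ᵥ v) i * v k) *ᵥ w =
        Γ *ᵥ (w - (s * (v ⬝ᵥ w)) • v) := by
      funext i
      rw [mulVec_sub, mulVec_smul]
      generalize Γ *ᵥ v = a
      simp only [mulVec, dotProduct, of_apply, sub_mul, Finset.sum_sub_distrib, Pi.sub_apply,
        Pi.smul_apply, smul_eq_mul]
      congr 1
      rw [mul_right_comm, Finset.mul_sum]
      exact Finset.sum_congr rfl fun k _ => by ring
    rw [e]
    refine (hΓ _).trans (mul_le_mul_of_nonneg_left ?_ hc)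
    simp only [sub_dotProduct, dotProduct_sub, dotProduct_smul, smul_dotProduct, smul_eq_mul,
      dotProduct_comm w v]
    have : 0 ≤ (2 * s - s ^ 2 * (v ⬝ᵥ v)) * (v ⬝ᵥ w) ^ 2 := mul_nonneg (hs ▸ h0) (sq_nonneg _)
    nlinarith
  · rw [← hs, frob, frob, ← Finset.sum_sub_distrib, dot_eq_sq (Γ *ᵥ v), Finset.mul_sum]
    refine Finset.sum_congr rfl fun i _ => ?_
    have e1 : ∑ k, (Γ i k - s * (Γ *ᵥ v) i * v k) ^ 2 = ∑ k, Γ i k ^ 2 -
        2 * s * (Γ *ᵥ v) i * ∑ k, Γ i k * v k + s ^ 2 * (Γ *ᵥ v) i ^ 2 * ∑ k, v k * v k := by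
      simp only [Finset.mul_sum, ← Finset.sum_sub_distrib, ← Finset.sum_add_distrib]
      exact Finset.sum_congr rfl fun k _ => by ring
    simp only [of_apply, e1]
    change _ - (_ - _ * (Γ *ᵥ v) i + _ * (v ⬝ᵥ v)) = _
    ring
  · have e : ∀ k, lc B (fun i => (Matrix.of fun i k => Γ i k - s * (Γ *ᵥ v) i * v k) i k) =
        lc B (fun i => Γ i k) - (s * v k) • lc B (Γ *ᵥ v) := by
      intro k
      simp only [lc, of_apply, sub_smul, Finset.sum_sub_distrib, Finset.smul_sum, smul_smul]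
      congr 1
      exact Finset.sum_congr rfl fun i _ => by congr 1; ring
    simp only [TT, e]
    generalize hb : lc B (Γ *ᵥ v) = b
    have hb' : ∑ k, v k • lc B (fun i => Γ i k) = b := by rw [← hb, lc_mulVec]
    have e1 : ∑ k, (lc B (fun i => Γ i k) - (s * v k) • b) * Y *
        (lc B (fun i => Γ i k) - (s * v k) • b) =
        ∑ k, lc B (fun i => Γ i k) * Y * lc B (fun i => Γ i k) -
          s • ((∑ k, v k • lc B (fun i => Γ i k)) * Y * b) -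
          s • (b * Y * ∑ k, v k • lc B (fun i => Γ i k)) +
          (s ^ 2 * ∑ k, v k * v k) • (b * Y * b) := by
      simp only [Finset.sum_mul, Finset.mul_sum, Finset.smul_sum, Finset.sum_smul,
        ← Finset.sum_sub_distrib, ← Finset.sum_add_distrib]
      refine Finset.sum_congr rfl fun k _ => ?_
      simp only [sub_mul, mul_sub, smul_mul_assoc, mul_smul_comm]
      module
    rw [e1, hb', ← hs]
    change _ - _ - _ + (s ^ 2 * (v ⬝ᵥ v)) • _ = _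
    module

/-- first order condition, with a shrinking of the covariance in direction `v` -/
lemma first_order (h : LocMin B ζ Γ x p μ β lam c) (hζ : ∀ i, 0 < ζ i) (hp : 1 ≤ p) (hμ : 0 ≤ μ)
    (hx : ∀ i, |x i| ≤ 1) (hΓ : ∀ v, Γ *ᵥ v ⬝ᵥ Γ *ᵥ v ≤ c * (v ⬝ᵥ v)) (hc : 0 ≤ c)
    {v : I → ℝ} (hv : v ⬝ᵥ v ≤ 1) {U : Matrix D D ℝ} (hU : Uᵀ = U) {δ : ℝ}
    (hP : PD (δ • diagonal ζ + (U - TT B Γ U) + lc B (Γ *ᵥ v) * lc B (Γ *ᵥ v))) :
    0 ≤ δ + μ * (diagonal ζ ^ p * U).trace + β * (Γ *ᵥ v ⬝ᵥ Γ *ᵥ v) := by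
  obtain ⟨g, r, hr, -, he⟩ := obj_expand (fun i => (hζ i).le) hU 0 hp hμ
  set b := lc B (Γ *ᵥ v) with hb
  let N : ℝ → Matrix D D ℝ := fun t => δ • diagonal ζ + (U - TT B Γ U) + b * b +
    t • (b * U * b - U * U) + t ^ 2 • (U * U * U) - (2 * t ^ 3) • (U * U * (U * U))
  have hN : ∀ᶠ t in 𝓝 (0 : ℝ), PD (N t) := eventually_PD (by fun_prop) (by simpa [N] using hP)
  have hE := half_eventually (E := fun t : ℝ => t • U) (by fun_prop) (by simp)
  have := nonneg_of_eventually (k := 1) (f := fun t => δ + μ * (diagonal ζ ^ p * U).trace +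
    β * (Γ *ᵥ v ⬝ᵥ Γ *ᵥ v) + t * g + t ^ 2 * r t) (by fun_prop) ?_
  · simpa using this
  have h1 : ∀ᶠ t in 𝓝 (0 : ℝ), t < 1 := eventually_lt_nhds one_pos
  filter_upwards [nhdsWithin_le_nhds hN, nhdsWithin_le_nhds hE, nhdsWithin_le_nhds h1,
    self_mem_nhdsWithin] with t hNt hEt ht1 ht0
  have ht0' : 0 < t := ht0
  obtain ⟨Γ', a1, a2, a3⟩ := exists_shrink B hΓ hc hv ht0'.le ht1.le
  have := h 0 Γ' (t • U) (t * δ) (by simpa using hx) a1 (by rw [transpose_smul, hU]) hEt ?_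
  · have e := he t
    simp only [smul_zero, add_zero] at e
    rw [e, a2] at this
    simp only [Pi.zero_apply, add_zero, sub_self, mul_zero, sub_zero] at this
    linarith
  · intro u
    have e : (t * δ) • diagonal ζ - lc B 0 + TT B Γ 1 - TT B Γ' (1 + t • U) + t • U -
        t • U * t • U + t • U * t • U * t • U - (2 : ℝ) • (t • U * t • U * (t • U * t • U)) =
        t • N t := by
      rw [a3, TT_add, TT_smul, lc_zero, ← hb]
      simp only [N, mul_add, add_mul, mul_one, smul_mul_assoc, mul_smul_comm]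
      module
    rw [e, qf_smul]
    exact mul_nonneg ht0'.le (hNt.nonneg u)

/-- second order condition -/
lemma second_order (h : LocMin B ζ Γ x p μ β lam c) (hζ : ∀ i, 0 < ζ i) (hp : 1 ≤ p)
    (hμ : 0 ≤ μ) (hx : ∀ i, |x i| ≤ 1) (hΓ : ∀ v, Γ *ᵥ v ⬝ᵥ Γ *ᵥ v ≤ c * (v ⬝ᵥ v))
    {y : I → ℝ} (hy : ∀ i, ¬ |x i| < 1 → y i = 0) {U V : Matrix D D ℝ} (hU : Uᵀ = U)
    (hV : Vᵀ = V) (h1 : U - TT B Γ U = lc B y) (h2 : V - TT B Γ V = U * U) :
    lam * (y ⬝ᵥ y) ≤ ((p : ℝ) - 1) / 2 * (μ * (diagonal ζ ^ p * (U * U)).trace) +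
      μ * (diagonal ζ ^ p * V).trace := by
  obtain ⟨g, r, hr, hg, he⟩ := obj_expand (fun i => (hζ i).le) hU V hp hμ
  refine le_trans (le_of_forall_pos_le_add fun ε hε => ?_) hg
  let F : ℝ → Matrix D D ℝ := fun t => U + t • V
  let N : ℝ → Matrix D D ℝ := fun t => ε • diagonal ζ + U * U - F t * F t +
    t • (F t * F t * F t) - (2 * t ^ 2) • (F t * F t * (F t * F t))
  have hN : ∀ᶠ t in 𝓝 (0 : ℝ), PD (N t) :=
    eventually_PD (by fun_prop) (by simpa [N, F] using (PD_diagonal hζ).smul hε)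
  have hE := half_eventually (E := fun t : ℝ => t • U + t ^ 2 • V) (by fun_prop) (by simp)
  have hc : ∀ᶠ t in 𝓝 (0 : ℝ), ∀ i, |x i + (t • y) i| ≤ 1 := by
    rw [eventually_all]
    intro i
    by_cases hi : |x i| < 1
    · have hcont : Continuous fun t : ℝ => |x i + (t • y) i| := by fun_prop
      exact (hcont.continuousAt.eventually_lt continuousAt_const (by simpa using hi)).mono
        fun t ht => ht.le
    · exact Eventually.of_forall fun t => by simpa [hy i hi] using hx i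
  have key : ∀ᶠ t in 𝓝 (0 : ℝ), 0 ≤ t ^ 2 * ε + (t * (μ * (diagonal ζ ^ p * U).trace) +
      t ^ 2 * g + t ^ 3 * r t) - lam * (2 * t * (x ⬝ᵥ y) + t ^ 2 * (y ⬝ᵥ y)) := by
    filter_upwards [hN, hE, hc] with t hNt hEt hct
    have := h (t • y) Γ (t • U + t ^ 2 • V) (t ^ 2 * ε) hct hΓ
      (by rw [transpose_add, transpose_smul, transpose_smul, hU, hV]) hEt ?_
    · rw [he t] at this
      have e : ∑ i, (x i + (t • y) i) ^ 2 - ∑ i, x i ^ 2 =
          2 * t * (x ⬝ᵥ y) + t ^ 2 * (y ⬝ᵥ y) := by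
        simp only [dotProduct, Finset.mul_sum, ← Finset.sum_sub_distrib,
          ← Finset.sum_add_distrib, Pi.smul_apply, smul_eq_mul]
        exact Finset.sum_congr rfl fun i _ => by ring
      rw [e] at this
      simpa using this
    · intro u
      have hF : t • U + t ^ 2 • V = t • F t := by simp only [F]; module
      have e : (t ^ 2 * ε) • diagonal ζ - lc B (t • y) + TT B Γ 1 -
          TT B Γ (1 + (t • U + t ^ 2 • V)) + (t • U + t ^ 2 • V) -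
          t • F t * t • F t + t • F t * t • F t * t • F t -
          (2 : ℝ) • (t • F t * t • F t * (t • F t * t • F t)) = t ^ 2 • N t := by
        rw [TT_add, TT_add, TT_smul, TT_smul, lc_smul, ← h1]
        simp only [N, smul_mul_assoc, mul_smul_comm, ← h2]
        module
      rw [← hF] at e
      rw [e, qf_smul]
      exact mul_nonneg (sq_nonneg t) (hNt.nonneg u)
  have key2 : ∀ᶠ t in 𝓝 (0 : ℝ), 0 ≤ (-t) ^ 2 * ε + ((-t) * (μ * (diagonal ζ ^ p * U).trace) +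
      (-t) ^ 2 * g + (-t) ^ 3 * r (-t)) - lam * (2 * (-t) * (x ⬝ᵥ y) + (-t) ^ 2 * (y ⬝ᵥ y)) := by
    have : Tendsto (fun t : ℝ => -t) (𝓝 0) (𝓝 0) := by simpa using (continuous_neg.tendsto (0 : ℝ))
    exact this.eventually key
  have := nonneg_of_eventually (k := 2)
    (f := fun t => 2 * ε + 2 * g - 2 * lam * (y ⬝ᵥ y) + t * (r t - r (-t))) (by fun_prop) ?_
  · simp only [zero_mul, add_zero] at this
    linarith
  filter_upwards [nhdsWithin_le_nhds key, nhdsWithin_le_nhds key2] with t a1 a2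
  linarith

end Pool.Agent.P.MP_1157dd_an
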