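import Pool.Agent.P.MP_1157dd_an.Core

/-! Matrix Spencer: the half colouring step. -/

namespace Pool.Agent.P.MP_1157dd_an

open Matrix Filter Topology

variable {D I : Type} [Fintype D] [Fintype I] [DecidableEq D]

lemma trace_pow_comm (M N : Matrix D D ℝ) (p : ℕ) : ((M * N) ^ p).trace = ((N * M) ^ p).trace := by
  cases p with
  | zero => simp
  | succ p => rw [pow_succ, ← mul_assoc, mul_pow_mul, mul_assoc, trace_mul_comm, pow_succ, mul_assoc]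

lemma psd_bounds {Z : Matrix D D ℝ} (hs : Zᵀ = Z) (h0 : ∀ u, 0 ≤ qf Z u) {p : ℕ} (hp : 1 ≤ p) :
    0 ≤ (Z ^ p).trace ∧ ∀ a b, |Z a b| ≤ 1 + Fintype.card D * (1 + (Z ^ p).trace) ^ 2 := by
  obtain ⟨O, ζ, h1, h2, h3⟩ := spec hs
  have hζ : ∀ e, 0 ≤ ζ e := by
    intro e
    have := h0 (O *ᵥ Pi.single e 1)
    rwa [← qf_conj, h3, ← mul_assoc, ← mul_assoc, h1, one_mul, mul_assoc, h1, mul_one, qf_single,
      diagonal_apply_eq] at this
  have ht : ∀ k, (Z ^ k).trace = ∑ e, ζ e ^ k := by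
    intro k
    rw [h3, trace_pow_comm, ← mul_assoc, h1, one_mul, diagonal_pow, trace_diagonal]
    rfl
  have hnn : 0 ≤ (Z ^ p).trace := by
    rw [ht]; exact Finset.sum_nonneg fun e _ => pow_nonneg (hζ e) p
  refine ⟨hnn, fun a b => ?_⟩
  have h4 : frob Z ≤ Fintype.card D * (1 + (Z ^ p).trace) ^ 2 := by
    rw [frob_eq_trace, hs, ← sq, ht 2]
    calc _ ≤ ∑ _e : D, (1 + (Z ^ p).trace) ^ 2 := by
          refine Finset.sum_le_sum fun e _ => pow_le_pow_left₀ (hζ e) ?_ 2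
          have a1 : ζ e ^ p ≤ (Z ^ p).trace := by
            rw [ht]
            exact Finset.single_le_sum (f := fun e => ζ e ^ p) (fun e _ => pow_nonneg (hζ e) p)
              (Finset.mem_univ e)
          rcases le_total (ζ e) 1 with h | h
          · linarith
          · linarith [le_self_pow₀ h (by omega : p ≠ 0)]
      _ = _ := by rw [Finset.sum_const, Finset.card_univ, nsmul_eq_mul]
  have h5 : Z a b ^ 2 ≤ frob Z :=
    (Finset.single_le_sum (f := fun k => Z a k ^ 2) (fun _ _ => sq_nonneg _)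
      (Finset.mem_univ b)).trans (Finset.single_le_sum (f := fun i => ∑ k, Z i k ^ 2)
        (fun _ _ => Finset.sum_nonneg fun _ _ => sq_nonneg _) (Finset.mem_univ a))
  have h6 : |Z a b| ≤ 1 + Z a b ^ 2 := by
    rw [← sq_abs]; nlinarith [sq_nonneg (|Z a b| - 1), abs_nonneg (Z a b)]
  linarith

lemma compact_box {α β : Type} (R : ℝ) : IsCompact {M : Matrix α β ℝ | ∀ i j, |M i j| ≤ R} := by
  have : IsCompact (Set.univ.pi fun _ : α => Set.univ.pi fun _ : β => Set.Icc (-R) R) :=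
    isCompact_univ_pi fun _ => isCompact_univ_pi fun _ => isCompact_Icc
  have e : (Set.univ.pi fun _ : α => Set.univ.pi fun _ : β => Set.Icc (-R) R) =
      {M : α → β → ℝ | ∀ i j, |M i j| ≤ R} := by
    ext M
    simp only [Set.mem_pi, Set.mem_univ, true_imp_iff, Set.mem_Icc, abs_le, Set.mem_ofPred_eq]
  rw [e] at this
  exact this

lemma col_bound [DecidableEq I] {Γ : Matrix I I ℝ} {c : ℝ}
    (hΓ : ∀ v, Γ *ᵥ v ⬝ᵥ Γ *ᵥ v ≤ c * (v ⬝ᵥ v)) (k : I) : ∑ i, Γ i k ^ 2 ≤ c := by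
  have := hΓ (Pi.single k 1)
  rw [single_dotProduct, Pi.single_eq_same, mul_one, mul_one, dot_eq_sq] at this
  simpa using this

/-- the variables -/
abbrev Pt (I D : Type) : Type := (I → ℝ) × Matrix I I ℝ × Matrix D D ℝ × ℝ

/-- the feasible set -/
def Feas (A : I → Matrix D D ℝ) (x₀ : I → ℝ) (c : ℝ) (q : Pt I D) : Prop :=
  (∀ i, |q.1 i| ≤ 1) ∧ (∀ v, q.2.1 *ᵥ v ⬝ᵥ q.2.1 *ᵥ v ≤ c * (v ⬝ᵥ v)) ∧ q.2.2.1ᵀ = q.2.2.1 ∧
    ∀ u v, 2 * (u ⬝ᵥ v) ≤
      qf (q.2.2.2 • (1 : Matrix D D ℝ) - lc A (q.1 - x₀) - TT A q.2.1 q.2.2.1) u + qf q.2.2.1 v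

/-- the objective -/
noncomputable def obj (p : ℕ) (μ β lam c : ℝ) (q : Pt I D) : ℝ :=
  q.2.2.2 + μ / p * (q.2.2.1 ^ p).trace + β * (c * Fintype.card I - frob q.2.1) -
    lam * ∑ i, q.1 i ^ 2

lemma isClosed_feas (A : I → Matrix D D ℝ) (x₀ : I → ℝ) (c : ℝ) :
    IsClosed {q : Pt I D | Feas A x₀ c q} := by
  simp only [Feas, Set.ofPred_and, Set.ofPred_forall]
  refine (isClosed_iInter fun i => isClosed_le (by fun_prop) continuous_const).inter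
    ((isClosed_iInter fun v => isClosed_le (by fun_prop) continuous_const).inter
    ((isClosed_eq (by fun_prop) (by fun_prop)).inter
    (isClosed_iInter fun u => isClosed_iInter fun v => isClosed_le continuous_const ?_)))
  unfold qf TT lc
  fun_prop

lemma continuous_obj (p : ℕ) (μ β lam c : ℝ) : Continuous (obj (I := I) (D := D) p μ β lam c) := by
  unfold obj frob
  fun_prop

variable {A : I → Matrix D D ℝ} {x₀ : I → ℝ} {c : ℝ}

lemma Feas.facts [Nonempty D] {q : Pt I D} (h : Feas A x₀ c q) (hA : ∀ i, (A i)ᵀ = A i)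
    (hsym : ∀ (y : I → ℝ) (s : ℝ), (∀ u, qf (lc A y) u ≤ s * (u ⬝ᵥ u)) →
      ∀ u, -qf (lc A y) u ≤ s * (u ⬝ᵥ u)) :
    (∀ u, 0 ≤ qf q.2.2.1 u) ∧ (∀ u, qf (lc A (q.1 - x₀)) u ≤ q.2.2.2 * (u ⬝ᵥ u)) ∧
      0 ≤ q.2.2.2 ∧ (∀ u, qf (TT A q.2.1 q.2.2.1) u ≤ 2 * q.2.2.2 * (u ⬝ᵥ u)) ∧
      ∀ u, qf (q.2.2.2 • (1 : Matrix D D ℝ) - lc A (q.1 - x₀) - TT A q.2.1 q.2.2.1) u ≤
        2 * q.2.2.2 * (u ⬝ᵥ u) := by
  obtain ⟨-, -, -, h4⟩ := h
  have a1 : ∀ u, 0 ≤ qf q.2.2.1 u := fun u => by simpa [qf] using h4 0 u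
  have a2 : ∀ u, 0 ≤ q.2.2.2 * (u ⬝ᵥ u) - qf (lc A (q.1 - x₀)) u - qf (TT A q.2.1 q.2.2.1) u :=
    fun u => by
      have := h4 u 0
      rw [qf_sub, qf_sub, qf_smul, qf_one] at this
      simpa [qf] using this
  have a3 := TT_nonneg hA q.2.1 a1
  have a4 : ∀ u, qf (lc A (q.1 - x₀)) u ≤ q.2.2.2 * (u ⬝ᵥ u) := fun u => by linarith [a2 u, a3 u]
  have a5 := hsym _ _ a4
  refine ⟨a1, a4, ?_, fun u => by linarith [a2 u, a5 u], fun u => ?_⟩
  · obtain ⟨e⟩ := ‹Nonempty D›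
    have b1 := a4 (Pi.single e 1)
    have b2 := a5 (Pi.single e 1)
    simp only [single_dotProduct, Pi.single_eq_same, mul_one] at b1 b2
    linarith
  · rw [qf_sub, qf_sub, qf_smul, qf_one]
    linarith [a3 u, a5 u]

lemma sum_sq_le {x : I → ℝ} (hx : ∀ i, |x i| ≤ 1) : ∑ i, x i ^ 2 ≤ Fintype.card I := by
  calc _ ≤ ∑ _i : I, (1 : ℝ) := Finset.sum_le_sum fun i _ => by
        rw [← sq_abs]; exact pow_le_one₀ (abs_nonneg _) (hx i)
    _ = _ := by simp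

lemma frob_le [DecidableEq I] {Γ : Matrix I I ℝ} (hΓ : ∀ v, Γ *ᵥ v ⬝ᵥ Γ *ᵥ v ≤ c * (v ⬝ᵥ v)) :
    frob Γ ≤ c * Fintype.card I := by
  rw [frob, Finset.sum_comm]
  calc _ ≤ ∑ _k : I, c := Finset.sum_le_sum fun k _ => col_bound hΓ k
    _ = _ := by simp [mul_comm]

lemma exists_min [DecidableEq I] [Nonempty D] (hA : ∀ i, (A i)ᵀ = A i)
    (hsym : ∀ (y : I → ℝ) (s : ℝ), (∀ u, qf (lc A y) u ≤ s * (u ⬝ᵥ u)) →
      ∀ u, -qf (lc A y) u ≤ s * (u ⬝ᵥ u)) {p : ℕ} (hp : 1 ≤ p) {μ β lam : ℝ} (hμ : 0 < μ)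
    (hβ : 0 ≤ β) (hlam : 0 ≤ lam) {q₀ : Pt I D} (h₀ : Feas A x₀ c q₀) :
    ∃ q, Feas A x₀ c q ∧ ∀ q', Feas A x₀ c q' → obj p μ β lam c q ≤ obj p μ β lam c q' := by
  have hp' : (0 : ℝ) < p := by exact_mod_cast hp
  obtain ⟨M, hM⟩ : ∃ M, M = obj p μ β lam c q₀ + lam * Fintype.card I := ⟨_, rfl⟩
  have hK : IsCompact ({q : Pt I D | Feas A x₀ c q} ∩
      {q | obj p μ β lam c q ≤ obj p μ β lam c q₀}) := by
    have hbox : IsCompact ((Set.univ.pi fun _ : I => Set.Icc (-1 : ℝ) 1) ×ˢ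
        {Γ : Matrix I I ℝ | ∀ i j, |Γ i j| ≤ 1 + c} ×ˢ
        {Z : Matrix D D ℝ | ∀ i j, |Z i j| ≤ 1 + Fintype.card D * (1 + M * (p / μ)) ^ 2} ×ˢ
        Set.Icc (0 : ℝ) M) :=
      (isCompact_univ_pi fun _ => isCompact_Icc).prod ((compact_box _).prod
        ((compact_box _).prod isCompact_Icc))
    refine hbox.of_isClosed_subset ((isClosed_feas A x₀ c).inter
      (isClosed_le (continuous_obj p μ β lam c) continuous_const)) ?_
    rintro q ⟨hq, hJ⟩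
    obtain ⟨a1, -, a3, -, -⟩ := hq.facts hA hsym
    obtain ⟨b1, b2⟩ := psd_bounds hq.2.2.1 a1 hp
    have b3 := mul_nonneg hβ (sub_nonneg.2 (frob_le hq.2.1))
    have b4 := mul_le_mul_of_nonneg_left (sum_sq_le hq.1) hlam
    have b5 : 0 ≤ μ / p * (q.2.2.1 ^ p).trace := by positivity
    simp only [Set.mem_ofPred_eq] at hJ
    rw [obj] at hJ
    refine ⟨fun i _ => abs_le.1 (hq.1 i), fun i j => ?_, fun i j => (b2 i j).trans ?_, a3,
      by linarith⟩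
    · have c1 := (Finset.single_le_sum (f := fun i => q.2.1 i j ^ 2) (fun _ _ => sq_nonneg _)
        (Finset.mem_univ i)).trans (col_bound hq.2.1 j)
      rw [← sq_abs] at c1
      nlinarith [sq_nonneg (|q.2.1 i j| - 1), abs_nonneg (q.2.1 i j)]
    · have c1 : (q.2.2.1 ^ p).trace ≤ M * (p / μ) := by
        have : μ / p * (q.2.2.1 ^ p).trace ≤ M := by linarith
        calc _ = μ / p * (q.2.2.1 ^ p).trace * (p / μ) := by field_simp
          _ ≤ _ := by gcongr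
      gcongr
  obtain ⟨q, ⟨hq, hJ⟩, hmin⟩ := hK.exists_isMinOn ⟨q₀, h₀, le_refl (obj p μ β lam c q₀)⟩
    (continuous_obj p μ β lam c).continuousOn
  refine ⟨q, hq, fun q' hq' => ?_⟩
  rcases le_total (obj p μ β lam c q') (obj p μ β lam c q₀) with h | h
  · exact hmin ⟨hq', h⟩
  · exact le_trans hJ h

omit [DecidableEq D] in
lemma lc_conj (A : I → Matrix D D ℝ) (Y : Matrix D D ℝ) (y : I → ℝ) :
    lc (fun i => Yᵀ * A i * Y) y = Yᵀ * lc A y * Y := by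
  simp [lc, Finset.mul_sum, Finset.sum_mul]

omit [DecidableEq D] in
lemma TT_conj (A : I → Matrix D D ℝ) (Y : Matrix D D ℝ) (Γ : Matrix I I ℝ) (U : Matrix D D ℝ) :
    TT (fun i => Yᵀ * A i * Y) Γ U = Yᵀ * TT A Γ (Y * U * Yᵀ) * Y := by
  simp only [TT, lc_conj]
  simp only [Finset.mul_sum, Finset.sum_mul, mul_assoc]

lemma locMin_of {q : Pt I D} (hq : Feas A x₀ c q) {p : ℕ} {μ β lam : ℝ}
    (hmin : ∀ q', Feas A x₀ c q' → obj p μ β lam c q ≤ obj p μ β lam c q') {Y H : Matrix D D ℝ}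
    {ζ : D → ℝ} (h1 : Yᵀ * Y = diagonal ζ) (h2 : Y * Yᵀ = q.2.2.1) (h3 : Y * H = 1)
    (h4 : H * Y = 1) : LocMin (fun i => Yᵀ * A i * Y) ζ q.2.1 q.1 p μ β lam c := by
  obtain ⟨x, Γ, Z, z⟩ := q
  intro y Γ' E δ a1 a2 a3 a4 a5
  simp only at h2
  subst h2
  have hdot : ∀ u v, Y *ᵥ u ⬝ᵥ v = u ⬝ᵥ Yᵀ *ᵥ v := fun u v => by
    rw [dotProduct_mulVec u, vecMul_transpose]
  have hqf : ∀ M v, qf (Y * M * Yᵀ) v = qf M (Yᵀ *ᵥ v) := fun M v => by
    rw [← qf_conj, transpose_transpose]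
  have := hmin (x + y, Γ', Y * (1 + E) * Yᵀ, z + δ) ⟨a1, a2, ?_, fun u v => ?_⟩
  · simp only [obj, Pi.add_apply] at this
    rw [trace_pow_comm (Y * (1 + E)), ← mul_assoc, h1, trace_pow_comm Y, h1] at this
    linarith
  · simp only [transpose_mul, transpose_add, transpose_one, transpose_transpose, a3, mul_assoc]
  · obtain ⟨u, rfl⟩ : ∃ u', u = Y *ᵥ u' := ⟨H *ᵥ u, by rw [mulVec_mulVec, h3, one_mulVec]⟩
    have b1 := hq.2.2.2 (Y *ᵥ u) (Hᵀ *ᵥ u)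
    have b2 : Yᵀ *ᵥ Hᵀ *ᵥ u = u := by
      rw [mulVec_mulVec, ← transpose_mul, h4, transpose_one, one_mulVec]
    have b3 := hqf 1 (Hᵀ *ᵥ u)
    rw [mul_one, b2, qf_one] at b3
    simp only at b1 ⊢
    rw [hdot, b2, b3] at b1
    rw [hdot, hqf]
    refine (inv_bound a3 a4 u (Yᵀ *ᵥ v)).trans (add_le_add_left ?_ _)
    have b4 := a5 u
    rw [lc_conj, TT_conj, TT_conj, ← h1, mul_one] at b4
    have b5 : qf (Yᵀ * Y) u = Y *ᵥ u ⬝ᵥ Y *ᵥ u := by rw [← qf_one, ← qf_conj, mul_one]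
    rw [add_sub_right_comm x y x₀, lc_add]
    simp only [qf_add, qf_sub, qf_smul, qf_one, qf_conj, b5] at b1 b4 ⊢
    linarith

theorem half_colouring [DecidableEq I] [Nonempty D] [Nonempty I] (hA : ∀ i, (A i)ᵀ = A i)
    (hA1 : ∀ i u, A i *ᵥ u ⬝ᵥ A i *ᵥ u ≤ u ⬝ᵥ u)
    (hsym : ∀ (y : I → ℝ) (s : ℝ), (∀ u, qf (lc A y) u ≤ s * (u ⬝ᵥ u)) →
      ∀ u, -qf (lc A y) u ≤ s * (u ⬝ᵥ u)) {p : ℕ} (hp : 1 ≤ p)
    (hd : Fintype.card D ≤ 2 ^ p * Fintype.card I) (hx₀ : ∀ i, |x₀ i| ≤ 1) :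
    ∃ x : I → ℝ, (∀ i, |x i| ≤ 1) ∧
      2 * (Finset.univ.filter fun i => |x i| < 1).card ≤ Fintype.card I ∧
      ∀ u, qf (lc A (x - x₀)) u ≤ 2 ^ 26 * √((p + 1) * Fintype.card I) * (u ⬝ᵥ u) := by
  have hn : (0 : ℝ) < Fintype.card I := by exact_mod_cast Fintype.card_pos
  have hdp : (0 : ℝ) < Fintype.card D := by exact_mod_cast Fintype.card_pos
  have hp' : (1 : ℝ) ≤ p := by exact_mod_cast hp
  have hd' : (Fintype.card D : ℝ) ≤ 2 ^ p * Fintype.card I := by exact_mod_cast hd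
  obtain ⟨c, hc⟩ : ∃ c : ℝ, c = 64 * (p + 1) := ⟨_, rfl⟩
  have hc0 : 0 < c := by rw [hc]; positivity
  obtain ⟨w, hw⟩ : ∃ w : ℝ, w = 2 ^ 24 * √((p + 1) * Fintype.card I) := ⟨_, rfl⟩
  have hw0 : 0 < w := by rw [hw]; positivity
  have hw2 : w ^ 2 = 2 ^ 42 * (c * Fintype.card I) := by
    rw [hw, mul_pow, Real.sq_sqrt (by positivity), hc]; ring
  obtain ⟨μ, hμ⟩ : ∃ μ : ℝ, μ = p * w ^ (p + 1) / Fintype.card D := ⟨_, rfl⟩
  have hμ0 : 0 < μ := by rw [hμ]; positivity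
  let q₀ : Pt I D := (x₀, √c • 1, w⁻¹ • 1, 2 * w)
  have h₀ : Feas A x₀ c q₀ := by
    refine ⟨hx₀, fun v => ?_, by simp [q₀], fun u v => ?_⟩
    · simp only [q₀, smul_mulVec, one_mulVec, smul_dotProduct, dotProduct_smul, smul_eq_mul]
      rw [← mul_assoc, Real.mul_self_sqrt hc0.le]
    · have a1 : qf (TT A (√c • (1 : Matrix I I ℝ)) 1) u ≤ c * Fintype.card I * (u ⬝ᵥ u) := by
        rw [TT, qf_sum]
        calc _ ≤ ∑ _k : I, c * (u ⬝ᵥ u) := by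
              refine Finset.sum_le_sum fun k _ => ?_
              have e : lc A (fun i => (√c • (1 : Matrix I I ℝ)) i k) = √c • A k := by
                simp [lc, one_apply]
              rw [e, mul_one, smul_mul_assoc, mul_smul_comm, smul_smul, Real.mul_self_sqrt hc0.le,
                qf_smul, qf, ← mulVec_mulVec, symm_dot (hA k)]
              exact mul_le_mul_of_nonneg_left (hA1 k u) hc0.le
          _ = _ := by rw [Finset.sum_const, Finset.card_univ, nsmul_eq_mul]; ring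
      simp only [q₀, sub_self, lc_zero, sub_zero, TT_smul, qf_sub, qf_smul, qf_one]
      have a2 : w⁻¹ * qf (TT A (√c • (1 : Matrix I I ℝ)) 1) u ≤ w * (u ⬝ᵥ u) := by
        rw [inv_mul_le_iff₀ hw0]
        nlinarith [dot_nonneg u, mul_nonneg (mul_pos hc0 hn).le (dot_nonneg u)]
      have a3 := mul_nonneg (inv_pos.2 hw0).le (dot_nonneg (w • u - v))
      simp only [sub_dotProduct, dotProduct_sub, smul_dotProduct, dotProduct_smul, smul_eq_mul,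
        dotProduct_comm v u, mul_sub, ← mul_assoc, inv_mul_cancel₀ hw0.ne', one_mul] at a3
      linarith
  obtain ⟨q, hq, hmin⟩ := exists_min hA hsym hp hμ0 (β := 16 * w / (Fintype.card I * c))
    (lam := w / Fintype.card I) (by positivity) (by positivity) h₀
  obtain ⟨a1, a2, a3, a4, a5⟩ := hq.facts hA hsym
  have hJ := hmin q₀ h₀
  have e1 : μ / p * ((w⁻¹ • (1 : Matrix D D ℝ)) ^ p).trace = w := by
    rw [smul_pow, one_pow, trace_smul, trace_one, smul_eq_mul, hμ, inv_pow]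
    field_simp
    ring
  have e2 : frob (√c • (1 : Matrix I I ℝ)) = c * Fintype.card I := by
    rw [frob_eq_trace, transpose_smul, transpose_one, smul_mul_assoc, one_mul, smul_smul,
      Real.mul_self_sqrt hc0.le, trace_smul, trace_one, smul_eq_mul]
  simp only [obj, q₀, e1, e2] at hJ
  have b1 : 0 ≤ μ / p * (q.2.2.1 ^ p).trace :=
    mul_nonneg (by positivity) (psd_bounds hq.2.2.1 a1 hp).1
  have b2 : 0 ≤ 16 * w / (Fintype.card I * c) * (c * Fintype.card I - frob q.2.1) :=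
    mul_nonneg (by positivity) (sub_nonneg.2 (frob_le hq.2.1))
  have b3 : w / Fintype.card I * ∑ i, q.1 i ^ 2 ≤ w := by
    calc _ ≤ w / Fintype.card I * Fintype.card I :=
          mul_le_mul_of_nonneg_left (sum_sq_le hq.1) (by positivity)
      _ = w := by field_simp
  have b4 : 0 ≤ w / Fintype.card I * ∑ i, x₀ i ^ 2 := by positivity
  have hz : q.2.2.2 ≤ 4 * w := by linarith
  have hfr : 3 / 4 * (c * Fintype.card I) ≤ frob q.2.1 := by
    have : 16 * w / (Fintype.card I * c) * (c * Fintype.card I - frob q.2.1) ≤ 4 * w := by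
      linarith
    rw [div_mul_eq_mul_div, div_le_iff₀ (by positivity)] at this
    nlinarith
  have a5' : ∀ u, qf (q.2.2.2 • (1 : Matrix D D ℝ) - lc A (q.1 - x₀) - TT A q.2.1 q.2.2.1) u ≤
      8 * w * (u ⬝ᵥ u) := fun u => (a5 u).trans (by nlinarith [dot_nonneg u])
  have hPD : PD q.2.2.1 := by
    refine ⟨(8 * w)⁻¹, by positivity, fun v => ?_⟩
    have c1 := hq.2.2.2 ((8 * w)⁻¹ • v) v
    have c2 := a5' ((8 * w)⁻¹ • v)
    simp only [smul_dotProduct, dotProduct_smul, smul_eq_mul] at c1 c2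
    rw [← mul_assoc (8 * w), mul_inv_cancel₀ (by positivity), one_mul] at c2
    linarith
  obtain ⟨Y, H, ζ, hζ, h1, h2, h3, h4⟩ := spec_pos hq.2.2.1 hPD
  have hY : ∀ u, Y *ᵥ u ⬝ᵥ Y *ᵥ u = qf (diagonal ζ) u := fun u => by
    rw [← qf_one, ← qf_conj, mul_one, h1]
  have hYe : ∀ e, Y *ᵥ Pi.single e 1 ⬝ᵥ Y *ᵥ Pi.single e 1 = ζ e := fun e => by
    rw [hY, qf_single, diagonal_apply_eq]
  refine ⟨q.1, hq.1, ?_, fun u => (a2 u).trans (mul_le_mul_of_nonneg_right ?_ (dot_nonneg u))⟩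
  swap
  · rw [hw] at hz; linarith
  refine core (locMin_of hq hmin h1 h2 h3 h4) (fun i => ?_) hζ (fun i u v => ?_) hp hμ0
    (by positivity) hc0 hq.1 hq.2.1 hfr (w := 8 * w) (θ := 2 ^ 19 / w) (by positivity)
    (by positivity) (fun e => ?_) (fun e => ?_) ?_ ?_ ?_
  · simp only [transpose_mul, transpose_transpose, hA, mul_assoc]
  · rw [← mulVec_mulVec, ← mulVec_mulVec, dotProduct_mulVec v, vecMul_transpose, ← hY, ← hY,
      mul_comm]
    exact (dot_sq_le _ _).trans (mul_le_mul_of_nonneg_left (hA1 i _) (dot_nonneg _))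
  · have c1 := hq.2.2.2 (Y *ᵥ Pi.single e 1) (Hᵀ *ᵥ Pi.single e 1)
    have c2 := a5' (Y *ᵥ Pi.single e 1)
    have c3 : Yᵀ *ᵥ Hᵀ *ᵥ Pi.single e (1 : ℝ) = Pi.single e 1 := by
      rw [mulVec_mulVec, ← transpose_mul, h4, transpose_one, one_mulVec]
    have c4 : qf q.2.2.1 (Hᵀ *ᵥ Pi.single e 1) = 1 := by
      have := qf_conj 1 Yᵀ (Hᵀ *ᵥ Pi.single e 1)
      rw [transpose_transpose, mul_one, h2, c3, qf_single, one_apply_eq] at this
      exact this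
    have c5 : Y *ᵥ Pi.single e 1 ⬝ᵥ Hᵀ *ᵥ Pi.single e (1 : ℝ) = 1 := by
      rw [← vecMul_transpose, ← dotProduct_mulVec, c3]; simp
    rw [hYe] at c2
    rw [c4, c5] at c1
    linarith
  · have c1 := a4 (Y *ᵥ Pi.single e 1)
    rw [hYe, ← qf_conj, qf_single] at c1
    rw [TT_conj, mul_one, h2]
    nlinarith [hζ e]
  · rw [div_pow, hw2]; apply le_of_eq; field_simp; norm_num
  · have c1 : 16 * w / (Fintype.card I * c) * c * (2 * (8 * w * (1 / (μ * (2 ^ 19 / w) ^ p)))) *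
        ((8 * w) ^ p / μ) = 256 * (Fintype.card D : ℝ) ^ 2 /
          (Fintype.card I * p ^ 2 * ((2 ^ p) ^ 2 * (2 ^ 14) ^ p)) := by
      have : ((2 : ℝ) ^ 19) ^ p = 8 ^ p * ((2 ^ p) ^ 2 * (2 ^ 14) ^ p) := by
        rw [← pow_mul 2 p 2, mul_comm p 2, pow_mul 2 2 p, ← mul_pow, ← mul_pow]; norm_num
      rw [hμ, div_pow, this, mul_pow 8 w]
      field_simp
      ring
    rw [c1, div_le_iff₀ (by positivity)]
    have c2 : (2 : ℝ) ^ 14 ≤ (2 ^ 14) ^ p := le_self_pow₀ (by norm_num) (by omega)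
    have c3 : (Fintype.card D : ℝ) ^ 2 ≤ (2 ^ p * Fintype.card I) ^ 2 := by gcongr
    calc 256 * (Fintype.card D : ℝ) ^ 2 ≤ 256 * (2 ^ p * (Fintype.card I : ℝ)) ^ 2 := by gcongr
      _ = (Fintype.card I : ℝ) / 64 * (Fintype.card I * 1 ^ 2 * ((2 ^ p) ^ 2 * 2 ^ 14)) := by ring
      _ ≤ _ := by gcongr
  · rw [hc, lt_div_iff₀ hn]
    have : ((p : ℝ) + 1) / 2 * (5 * (16 * w / (Fintype.card I * (64 * (p + 1))))) *
        Fintype.card I = 5 / 8 * w := by field_simp; ring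
    rw [this]; linarith

end Pool.Agent.P.MP_1157dd_an
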